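import Mathlib
import Pool.Agent.H759R2.Kad.Defs

/-!
Statements (as propositions) of the pieces of the growth theorem. All index types live in `Type`.
-/

open scoped ComplexOrder InnerProductSpace ComplexConjugate
open Finset

noncomputable section

namespace H759R2.Kad

universe u v

/-- Fourth moment of a Rademacher sum of self-adjoint elements. -/
def St_fourth : Prop :=
  ∀ (B : Type u) [CStarAlgebra B] [PartialOrder B] [StarOrderedRing B] (n : ℕ) (x : Fin n → B),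
    (∀ k, IsSelfAdjoint (x k)) →
    ∑ e : Fin n → ℤˣ, (∑ k, (e k : ℤ) • x k) ^ 4 ≤
      ((2 : ℝ) ^ n * (3 * ‖∑ k, x k ^ 2‖)) • ∑ k, x k ^ 2

/-- Truncation. -/
def St_trunc : Prop :=
  ∀ (B : Type u) [CStarAlgebra B] [PartialOrder B] [StarOrderedRing B] (S : B) (t : ℝ),
    IsSelfAdjoint S → 0 < t →
    ∃ f g : B, IsSelfAdjoint f ∧ IsSelfAdjoint g ∧ S = f + g ∧ ‖f‖ ≤ t ∧
      g ^ 2 ≤ (1 / (16 * t ^ 2) : ℝ) • S ^ 4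

/-- Little Grothendieck inequality for self-adjoint families. -/
def St_gtsa : Prop :=
  ∀ (B : Type u) [CStarAlgebra B] [PartialOrder B] [StarOrderedRing B]
    (K : Type v) [NormedAddCommGroup K] [InnerProductSpace ℂ K] [CompleteSpace K]
    (T : B →ₗ[ℂ] K) (M : ℝ), 0 ≤ M → (∀ b, ‖T b‖ ≤ M * ‖b‖) →
    ∀ (n : ℕ) (x : Fin n → B), (∀ k, IsSelfAdjoint (x k)) →
      ∑ k, ‖T (x k)‖ ^ 2 ≤ 3 * M ^ 2 * ‖∑ k, x k ^ 2‖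

/-- Little Grothendieck inequality. -/
def St_gt : Prop :=
  ∀ (B : Type u) [CStarAlgebra B] [PartialOrder B] [StarOrderedRing B]
    (K : Type v) [NormedAddCommGroup K] [InnerProductSpace ℂ K] [CompleteSpace K]
    (T : B →ₗ[ℂ] K) (M : ℝ), 0 ≤ M → (∀ b, ‖T b‖ ≤ M * ‖b‖) →
    ∀ (κ : Type) [Fintype κ] (x : κ → B),
      ∑ k, ‖T (x k)‖ ^ 2 ≤
        3 * M ^ 2 * (‖∑ k, star (x k) * x k‖ + ‖∑ k, x k * star (x k)‖)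

/-- Dixmier property of matrices, with elementary tensors as unitaries. -/
def St_dix : Prop :=
  ∀ (A : Type u) [CStarAlgebra A] [PartialOrder A] [StarOrderedRing A] (τ : A →ₗ[ℂ] ℂ),
    IsTracialState τ → HasDixmier τ → ∀ (ι : Type) [Fintype ι] [DecidableEq ι] [Nonempty ι],
      IsTracialState (ntr τ ι) ∧
      ∀ X : CStarMatrix ι ι A, IsSelfAdjoint X → ∀ ε : ℝ, 0 < ε →
        ∃ (N : ℕ) (s : Fin (N + 1) → unitary (Matrix ι ι ℂ)) (h : Fin (N + 1) → unitary A),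
          ‖((N + 1 : ℂ))⁻¹ • ∑ k, tens (s k : Matrix ι ι ℂ) (h k : A) * X *
              star (tens (s k : Matrix ι ι ℂ) (h k : A)) -
            algebraMap ℂ (CStarMatrix ι ι A) (ntr τ ι X)‖ ≤ ε

/-- Column and row bounds for a symmetric derivation. -/
def St_col : Prop :=
  ∀ (B : Type u) [CStarAlgebra B] [PartialOrder B] [StarOrderedRing B]
    (K : Type v) [NormedAddCommGroup K] [InnerProductSpace ℂ K] [CompleteSpace K]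
    (π : B →⋆ₐ[ℂ] (K →L[ℂ] K)) (D : B →ₗ[ℂ] (K →L[ℂ] K)) (τ : B →ₗ[ℂ] ℂ),
    IsDer π D → IsTracialState τ → HasDixmier τ →
    ∀ γ : ℝ, 0 ≤ γ → (∀ b, ‖D b‖ ≤ γ * ‖b‖) → ∀ (κ : Type) [Fintype κ] (a : κ → B),
      (∀ ζ : K, ∑ k, ‖D (a k) ζ‖ ^ 2 ≤ 14 * γ ^ 2 * ‖∑ k, star (a k) * a k‖ * ‖ζ‖ ^ 2) ∧
      (∀ ξ : κ → K, ‖∑ k, D (a k) (ξ k)‖ ^ 2 ≤
        14 * γ ^ 2 * ‖∑ k, a k * star (a k)‖ * ∑ k, ‖ξ k‖ ^ 2)

/-- Entries of `π(x)* D(x)` and `D(x) π(x)*` for a unitary matrix `x`. -/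
def St_entry : Prop :=
  ∀ (A : Type u) [CStarAlgebra A] [PartialOrder A] [StarOrderedRing A]
    (H : Type v) [NormedAddCommGroup H] [InnerProductSpace ℂ H] [CompleteSpace H]
    (π : A →⋆ₐ[ℂ] (H →L[ℂ] H)) (D : A →ₗ[ℂ] (H →L[ℂ] H)) (τ : A →ₗ[ℂ] ℂ),
    IsDer π D → IsTracialState τ → HasDixmier τ →
    ∀ γ : ℝ, 0 ≤ γ → (∀ a, ‖D a‖ ≤ γ * ‖a‖) → ∀ (ι : Type) [Fintype ι] [DecidableEq ι]
      (x : CStarMatrix ι ι A), x ∈ unitary (CStarMatrix ι ι A) → ∀ (c c' : ι) (u : H),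
      ‖(star (ampHom π ι x) * amp D ι x) (inj c' u) c‖ ≤ √14 * γ * ‖u‖ ∧
      ‖(amp D ι x * star (ampHom π ι x)) (inj c' u) c‖ ≤ √14 * γ * ‖u‖

/-- The block bound. -/
def St_block : Prop :=
  ∀ (A : Type u) [CStarAlgebra A] [PartialOrder A] [StarOrderedRing A]
    (H : Type v) [NormedAddCommGroup H] [InnerProductSpace ℂ H] [CompleteSpace H]
    (π : A →⋆ₐ[ℂ] (H →L[ℂ] H)) (D : A →ₗ[ℂ] (H →L[ℂ] H)) (τ : A →ₗ[ℂ] ℂ),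
    IsDer π D → IsTracialState τ → HasDixmier τ →
    ∀ (α β : Type) [Fintype α] [DecidableEq α] [Nonempty α] [Fintype β] [DecidableEq β]
      [Nonempty β] (γ : ℝ), 0 ≤ γ → (∀ Y : CStarMatrix β β A, ‖amp D β Y‖ ≤ γ * ‖Y‖) →
      ∀ (X : CStarMatrix (α × β) (α × β) A) (ξ : HH (α × β) H),
        ‖amp D (α × β) X ξ‖ ^ 2 ≤ γ ^ 2 * ‖ξ‖ ^ 2 *
          (86 * ‖X‖ ^ 2 + 84 / (Fintype.card β : ℝ) * (tr τ (α × β) (star X * X)).re)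

/-- The block bound for `m × m` matrices, `m ≤ q l`. -/
def St_embed : Prop :=
  ∀ (A : Type u) [CStarAlgebra A] [PartialOrder A] [StarOrderedRing A]
    (H : Type v) [NormedAddCommGroup H] [InnerProductSpace ℂ H] [CompleteSpace H]
    (π : A →⋆ₐ[ℂ] (H →L[ℂ] H)) (D : A →ₗ[ℂ] (H →L[ℂ] H)) (τ : A →ₗ[ℂ] ℂ),
    IsDer π D → IsTracialState τ → HasDixmier τ →
    ∀ (m l q : ℕ), 0 < l → 0 < q → m ≤ q * l → ∀ γ : ℝ, 0 ≤ γ →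
      (∀ Y : CStarMatrix (Fin l) (Fin l) A, ‖amp D (Fin l) Y‖ ≤ γ * ‖Y‖) →
      ∀ (X : CStarMatrix (Fin m) (Fin m) A) (ξ : HH (Fin m) H),
        ‖amp D (Fin m) X ξ‖ ^ 2 ≤ γ ^ 2 * ‖ξ‖ ^ 2 *
          (86 * ‖X‖ ^ 2 + 84 / (l : ℝ) * (tr τ (Fin m) (star X * X)).re)

/-- The deterministic inequality for one unitary. -/
def St_det : Prop :=
  ∀ (B : Type u) [CStarAlgebra B] [PartialOrder B] [StarOrderedRing B]
    (K : Type v) [NormedAddCommGroup K] [InnerProductSpace ℂ K] [CompleteSpace K]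
    (π : B →⋆ₐ[ℂ] (K →L[ℂ] K)) (D : B →ₗ[ℂ] (K →L[ℂ] K)), IsDer π D →
    ∀ (t : B →ₗ[ℂ] ℂ), (∀ b, t (star b) = conj (t b)) → 0 ≤ (t 1).re →
    ∀ (a b : ℝ), 0 ≤ a → 0 ≤ b →
    (∀ (X : B) (ξ : K), ‖D X ξ‖ ^ 2 ≤ ‖ξ‖ ^ 2 * (a * ‖X‖ ^ 2 + b * (t (star X * X)).re)) →
    ∀ U : B, U ∈ unitary B → ∀ θ : K, ‖θ‖ = 1 → ∀ Q : ℕ, 0 < Q →
      ‖(∑ p ∈ range Q, ⟪π (U ^ p) θ, D (U ^ p) θ⟫_ℂ) +
        ∑ q ∈ range Q, ⟪θ, D (U ^ (q + 1)) (π (star U ^ (q + 1)) θ)⟫_ℂ‖ ^ 2 ≤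
      4 * Q ^ 2 * a + b * (2 * Q * (t 1).re + 4 * Q * ∑ k ∈ range (2 * Q), ‖t (U ^ (k + 1))‖)

/-- Orthogonality of characters. -/
def St_orth : Prop :=
  ∀ (ι : Type) [Fintype ι] [DecidableEq ι] (R : ℕ) [NeZero R] (f g : ι → ZMod R),
    ∑ ω, conj (Chi f ω) * Chi g ω =
      if f = g then ((Fintype.card (ι → ZMod R) : ℕ) : ℂ) else 0

/-- Fourier expansion of the recursively defined polynomials, with supports. -/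
def St_expand : Prop :=
  ∀ (ι : Type) [Fintype ι] [DecidableEq ι] (R : ℕ) [NeZero R]
    (W : Type u) [AddCommGroup W] [Module ℂ W] (P : ι → W →ₗ[ℂ] W) (V : W →ₗ[ℂ] W) (θ : W),
    (∀ c c', c ≠ c' → ∀ z, P c (P c' z) = 0) → ∀ k : ℕ, k + 1 < R →
    ∃ Y : (ι → ZMod R) → W, (∀ ω, wv P V θ ω k = ∑ f, Chi f ω • Y f) ∧
      (∀ f, Y f ≠ 0 → (univ.filter fun c => f c ≠ 0).card ≤ k + 1) ∧
      (∀ f c, f c = 0 → P c (Y f) = 0)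

/-- Operators with small entries are small on the polynomials `wv`. -/
def St_phop : Prop :=
  ∀ (ι : Type) [Fintype ι] [DecidableEq ι] (R : ℕ) [NeZero R]
    (H : Type v) [NormedAddCommGroup H] [InnerProductSpace ℂ H]
    (V S : HH ι H →L[ℂ] HH ι H) (b : ℝ), 0 ≤ b →
    (∀ (c c' : ι) (u : H), ‖S (inj c' u) c‖ ≤ b * ‖u‖) → ∀ (θ : HH ι H) (k : ℕ), k + 1 < R →
    ‖∑ ω : ι → ZMod R, ⟪wv cproj V.toLinearMap θ ω k, S (wv cproj V.toLinearMap θ ω k)⟫_ℂ‖ ≤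
      b * (k + 1) * ∑ ω : ι → ZMod R, ‖wv cproj V.toLinearMap θ ω k‖ ^ 2

/-- Second moment of the traces of powers. -/
def St_phtr : Prop :=
  ∀ (ι : Type) [Fintype ι] [DecidableEq ι] (R : ℕ) [NeZero R]
    (A : Type u) [CStarAlgebra A] [PartialOrder A] [StarOrderedRing A] (τ : A →ₗ[ℂ] ℂ),
    IsTracialState τ → ∀ x : CStarMatrix ι ι A, x ∈ unitary (CStarMatrix ι ι A) →
    ∀ k : ℕ, k + 1 < R →
      ∑ ω : ι → ZMod R, ‖tr τ ι ((x * ph A ω) ^ (k + 1))‖ ^ 2 ≤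
        (Fintype.card (ι → ZMod R) : ℝ) * ((k + 1) * Fintype.card ι)

/-- Averages of the two families of matrix coefficients. -/
def St_tele : Prop :=
  ∀ (A : Type u) [CStarAlgebra A] [PartialOrder A] [StarOrderedRing A]
    (H : Type v) [NormedAddCommGroup H] [InnerProductSpace ℂ H] [CompleteSpace H]
    (π : A →⋆ₐ[ℂ] (H →L[ℂ] H)) (D : A →ₗ[ℂ] (H →L[ℂ] H)), IsDer π D →
    ∀ (ι : Type) [Fintype ι] [DecidableEq ι] (x : CStarMatrix ι ι A),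
    x ∈ unitary (CStarMatrix ι ι A) → ∀ b : ℝ, 0 ≤ b →
    (∀ (c c' : ι) (u : H), ‖(star (ampHom π ι x) * amp D ι x) (inj c' u) c‖ ≤ b * ‖u‖ ∧
      ‖(amp D ι x * star (ampHom π ι x)) (inj c' u) c‖ ≤ b * ‖u‖) →
    ∀ (R : ℕ) [NeZero R] (Q : ℕ), 0 < Q → Q + 1 < R → ∀ θ : HH ι H, ‖θ‖ = 1 →
      ‖(∑ ω : ι → ZMod R, ((∑ p ∈ range Q,
            ⟪ampHom π ι ((x * ph A ω) ^ p) θ, amp D ι ((x * ph A ω) ^ p) θ⟫_ℂ) +
          ∑ q ∈ range Q, ⟪θ, amp D ι ((x * ph A ω) ^ (q + 1))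
            (ampHom π ι (star (x * ph A ω) ^ (q + 1)) θ)⟫_ℂ)) -
        (Fintype.card (ι → ZMod R) : ℂ) * (Q * ⟪θ, (amp D ι x * star (ampHom π ι x)) θ⟫_ℂ)‖ ≤
      (Fintype.card (ι → ZMod R) : ℝ) * (2 * b * Q ^ 3)

/-- A self-adjoint-valued bound on unitaries gives a bound on the ball. -/
def St_ext : Prop :=
  ∀ (B : Type u) [CStarAlgebra B] [PartialOrder B] [StarOrderedRing B]
    (K : Type v) [NormedAddCommGroup K] [InnerProductSpace ℂ K] [CompleteSpace K]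
    (π : B →⋆ₐ[ℂ] (K →L[ℂ] K)) (D : B →ₗ[ℂ] (K →L[ℂ] K)), IsDer π D →
    ∀ M : ℝ, 0 ≤ M → (∀ x ∈ unitary B, ∀ θ : K, ‖θ‖ = 1 → ‖⟪θ, (D x * star (π x)) θ⟫_ℂ‖ ≤ M) →
    ∀ X : B, ‖D X‖ ≤ 2 * M * ‖X‖

/-- The recursion. -/
def St_rec : Prop :=
  ∀ (A : Type u) [CStarAlgebra A] [PartialOrder A] [StarOrderedRing A]
    (H : Type v) [NormedAddCommGroup H] [InnerProductSpace ℂ H] [CompleteSpace H]
    (π : A →⋆ₐ[ℂ] (H →L[ℂ] H)) (D : A →ₗ[ℂ] (H →L[ℂ] H)) (τ : A →ₗ[ℂ] ℂ),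
    IsDer π D → IsTracialState τ → HasDixmier τ →
    ∀ γ1 γl : ℝ, 0 ≤ γ1 → 0 ≤ γl → (∀ a, ‖D a‖ ≤ γ1 * ‖a‖) →
    ∀ Q m l : ℕ, 0 < Q → 128 * Q ^ 3 ≤ m → m ≤ Q * l →
      (∀ Y : CStarMatrix (Fin l) (Fin l) A, ‖amp D (Fin l) Y‖ ≤ γl * ‖Y‖) →
      ∀ X : CStarMatrix (Fin m) (Fin m) A,
        ‖amp D (Fin m) X‖ ≤ (50 * γl + 16 * Q ^ 2 * γ1) * ‖X‖

/-- Solution of the recursion. -/
def St_growth : Prop :=
  ∀ g : ℕ → ℝ, (∀ n, 0 ≤ g n) → (∀ n, g n ≤ n) →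
    (∀ Q m l : ℕ, 0 < Q → 128 * Q ^ 3 ≤ m → m ≤ Q * l → g m ≤ 50 * g l + 16 * Q ^ 2) →
    ∀ n : ℕ, 1 ≤ n → g n ≤ 60000 * Real.exp (11 * √(Real.log n))

/-- Growth for symmetric derivations. -/
def St_symm : Prop :=
  ∀ (A : Type u) [CStarAlgebra A] [PartialOrder A] [StarOrderedRing A]
    (H : Type v) [NormedAddCommGroup H] [InnerProductSpace ℂ H] [CompleteSpace H]
    (π : A →⋆ₐ[ℂ] (H →L[ℂ] H)) (D : A →ₗ[ℂ] (H →L[ℂ] H)) (τ : A →ₗ[ℂ] ℂ),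
    IsDer π D → IsTracialState τ → HasDixmier τ →
    ∀ γ1 : ℝ, 0 ≤ γ1 → (∀ a, ‖D a‖ ≤ γ1 * ‖a‖) →
    ∀ n : ℕ, 1 ≤ n → ∀ X : CStarMatrix (Fin n) (Fin n) A,
      ‖amp D (Fin n) X‖ ≤ 60000 * Real.exp (11 * √(Real.log n)) * γ1 * ‖X‖

/-- Main theorem: growth of the amplifications of a bounded derivation. -/
def St_main : Prop :=
  ∀ (A : Type u) [CStarAlgebra A] [PartialOrder A] [StarOrderedRing A] (τ : A →ₗ[ℂ] ℂ),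
    IsTracialState τ → HasDixmier τ →
    ∀ (H : Type v) [NormedAddCommGroup H] [InnerProductSpace ℂ H] [CompleteSpace H]
    (π : A →⋆ₐ[ℂ] (H →L[ℂ] H)) (D : A →L[ℂ] (H →L[ℂ] H)),
    (∀ a b, D (a * b) = π a * D b + D a * π b) →
    ∀ n : ℕ, 1 ≤ n → ∀ X : CStarMatrix (Fin n) (Fin n) A,
      ‖amp D.toLinearMap (Fin n) X‖ ≤ 120000 * Real.exp (11 * √(Real.log n)) * ‖D‖ * ‖X‖

end H759R2.Kad
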