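import Mathlib
import Pool.Agent.H759R2.Kad.Defs
import Pool.Agent.H759R2.Kad.Props
import Pool.Agent.H759R2.Kad.Props2
import Pool.Agent.H57R2.Kad2.Col

/-!
Statements of the pieces of the theorem: bounded homomorphisms of matrix algebras of arbitrary
size over an algebra with the Dixmier property are completely bounded.
All index types live in `Type`.
-/

open scoped ComplexOrder InnerProductSpace ComplexConjugate
open Finset

noncomputable section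

namespace H759R2.Kad

universe u v

/-! ### Definitions -/

section defs

variable {B : Type u} [CStarAlgebra B]

/-- There are arbitrarily large finite sets of unitaries that are orthogonal for `τ`. -/
def HasOrth (τ : B →ₗ[ℂ] ℂ) : Prop :=
  ∀ K : ℕ, ∃ h : Fin K → unitary B, ∀ i j, i ≠ j → τ (star (h i : B) * (h j : B)) = 0

/-- For each letter `c : Fin n`, a finite family of unitaries. -/
structure Fam (B : Type u) [CStarAlgebra B] (n : ℕ) where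
  /-- The family of the letter `c` has `k c + 1` members. -/
  k : Fin n → ℕ
  /-- The members of the families. -/
  g : ∀ c : Fin n, Fin (k c + 1) → unitary B

variable {n : ℕ}

/-- Choices of one member for each letter. -/
abbrev Fam.Idx (F : Fam B n) : Type := ∀ c : Fin n, Fin (F.k c + 1)

/-- The chosen unitaries. -/
def Fam.val (F : Fam B n) (s : F.Idx) : Fin n → unitary B := fun c => F.g c (s c)

/-- The families of the adjoints. -/
def Fam.adj (F : Fam B n) : Fam B n := ⟨F.k, fun c s => star (F.g c s)⟩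

/-- Products of at most `K` factors, each of them in `X` up to adjoint, or a member of the
family of a letter below `c` up to adjoint. -/
def Fam.IsWord (F : Fam B n) (X : Set B) (K : ℕ) (c : Fin n) (y : B) : Prop :=
  ∃ l : List B, l.length ≤ K ∧ y = l.prod ∧
    ∀ a ∈ l, a ∈ X ∨ star a ∈ X ∨ ∃ b : Fin n, b < c ∧ ∃ s, a = F.g b s ∨ a = star (F.g b s : B)

/-- The averaging and smallness properties of the families. -/
structure Fam.Good (F : Fam B n) (τ : B →ₗ[ℂ] ℂ) (X : Set B) (K : ℕ) (ε : ℝ) : Prop where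
  avgl : ∀ c y, F.IsWord X K c y → ‖((F.k c + 1 : ℂ))⁻¹ •
    ∑ s, star (F.g c s : B) * y * (F.g c s : B) - algebraMap ℂ B (τ y)‖ ≤ ε
  avgr : ∀ c y, F.IsWord X K c y → ‖((F.k c + 1 : ℂ))⁻¹ •
    ∑ s, (F.g c s : B) * y * star (F.g c s : B) - algebraMap ℂ B (τ y)‖ ≤ ε
  coefl : ∀ c (y : B), ‖((F.k c + 1 : ℂ))⁻¹ •
    ∑ s, τ (y * star (F.g c s : B)) • (F.g c s : B)‖ ≤ ε * ‖y‖
  coefr : ∀ c (y : B), ‖((F.k c + 1 : ℂ))⁻¹ •
    ∑ s, τ (y * (F.g c s : B)) • star (F.g c s : B)‖ ≤ ε * ‖y‖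

/-- Average over a finite type. -/
def fav (Ω : Type) [Fintype Ω] {V : Type*} [AddCommGroup V] [Module ℂ V] (f : Ω → V) : V :=
  (Fintype.card Ω : ℂ)⁻¹ • ∑ s, f s

variable {ι : Type} [Fintype ι] [DecidableEq ι]

/-- The diagonal matrix with unitary entries `g c`. -/
def gm (g : ι → unitary B) : CStarMatrix ι ι B :=
  CStarMatrix.ofMatrix (Matrix.diagonal fun c => (g c : B))

/-- The diagonal matrix with real scalar entries `d c`. -/
def dgc (B : Type u) [CStarAlgebra B] (d : ι → ℝ) : CStarMatrix ι ι B :=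
  CStarMatrix.ofMatrix (Matrix.diagonal fun c => algebraMap ℂ B (d c : ℂ))

/-- The word `x i c₁ * g c₁ * x c₁ c₂ * g c₂ * ... * g c_k`. -/
def rword (x : CStarMatrix ι ι B) (g : ι → unitary B) : ι → List ι → B
  | _, [] => 1
  | i, c :: l => x i c * (g c : B) * rword x g c l

/-- The product `p i c₁ * p c₁ c₂ * ... * p c_{k-1} c_k`. -/
def pword (p : ι → ι → ℝ) : ι → List ι → ℝ
  | _, [] => 1
  | i, c :: l => p i c * pword p c l

/-- The numbers `τ(|x i j|²)`. -/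
def pmat (τ : B →ₗ[ℂ] ℂ) (x : CStarMatrix ι ι B) (i j : ι) : ℝ := (τ (star (x i j) * x i j)).re

/-- The word of a sequence of letters, `g σ₀ * x σ₀ σ₁ * g σ₁ * ... * g σ_k`. -/
def sword (x : CStarMatrix ι ι B) (g : ι → unitary B) {k : ℕ} (σ : Fin (k + 1) → ι) : B :=
  (g (σ 0) : B) * rword x g (σ 0) (List.ofFn fun t : Fin k => σ t.succ)

/-- The frequencies of the letters in a sequence. -/
def freq (R : ℕ) {k : ℕ} (σ : Fin (k + 1) → ι) (c : ι) : ZMod R :=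
  ((univ.filter fun t => σ t = c).card : ZMod R)

/-- The matrix `(g P x)^k g P` with `P` the phases `ω`. -/
def Tw {R : ℕ} [NeZero R] (x : CStarMatrix ι ι B) (g : ι → unitary B) (ω : ι → ZMod R) (k : ℕ) :
    CStarMatrix ι ι B :=
  (gm g * ph B ω * x) ^ k * (gm g * ph B ω)

/-- The coefficient of `Tw` at the frequency `f`. -/
def Yf (x : CStarMatrix ι ι B) (g : ι → unitary B) (R k : ℕ) (f : ι → ZMod R) :
    CStarMatrix ι ι B :=
  CStarMatrix.ofMatrix fun i j => ∑ σ : Fin (k + 1) → ι,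
    if σ 0 = i ∧ σ (Fin.last k) = j ∧ freq R σ = f then sword x g σ else 0

/-- The indicator frequency of a set of letters. -/
def ind (R : ℕ) (M : Finset ι) (c : ι) : ZMod R := if c ∈ M then 1 else 0

end defs

section gram

variable {B : Type u} [CStarAlgebra B] [PartialOrder B] [StarOrderedRing B]
  {ι : Type} [Fintype ι] [DecidableEq ι]

/-- The Gram matrices of the coefficients at sets of letters are nearly diagonal and scalar, and
these diagonals nearly add up to `1`. -/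
def GramOK (Ω : Type) [Fintype Ω] (G : Ω → ι → unitary B) (x : CStarMatrix ι ι B) (R k : ℕ)
    (ε κ : ℝ) : Prop :=
  ∃ lam : Finset ι → ι → ℝ, (∀ M j, 0 ≤ lam M j) ∧
    (∀ M : Finset ι, M.card = k + 1 →
      ‖fav Ω (fun s => star (Yf x (G s) R k (ind R M)) * Yf x (G s) R k (ind R M)) -
        dgc B (fun j => if j ∈ M then lam M j else 0)‖ ≤ ε) ∧
    (∀ j, ∑ M ∈ univ.filter (fun M : Finset ι => M.card = k + 1 ∧ j ∈ M), lam M j ≤ 1) ∧
    (∀ j, 1 - κ ≤ ∑ M ∈ univ.filter (fun M : Finset ι => M.card = k + 1 ∧ j ∈ M), lam M j)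

end gram

/-- A bound for the amplification to `L × L` matrices. -/
def LvlBd {B : Type u} [CStarAlgebra B] [PartialOrder B] [StarOrderedRing B] {K : Type v}
    [NormedAddCommGroup K] [InnerProductSpace ℂ K] (w : B →ₗ[ℂ] (K →L[ℂ] K)) (L : ℕ) (γ : ℝ) :
    Prop :=
  ∀ Y : CStarMatrix (Fin L) (Fin L) B, ‖amp w (Fin L) Y‖ ≤ γ * ‖Y‖

/-! ### Families of unitaries -/

/-- One family. -/
def K_fam1 : Prop :=
  ∀ (B : Type u) [CStarAlgebra B] [PartialOrder B] [StarOrderedRing B] (τ : B →ₗ[ℂ] ℂ),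
    IsTracialState τ → HasDixmier τ → HasOrth τ → ∀ (Y : Set B), Y.Finite → ∀ ε : ℝ, 0 < ε →
    ∃ (k : ℕ) (g : Fin (k + 1) → unitary B),
      (∀ y ∈ Y, ‖((k + 1 : ℂ))⁻¹ • ∑ s, star (g s : B) * y * (g s : B) -
          algebraMap ℂ B (τ y)‖ ≤ ε ∧
        ‖((k + 1 : ℂ))⁻¹ • ∑ s, (g s : B) * y * star (g s : B) - algebraMap ℂ B (τ y)‖ ≤ ε) ∧
      ∀ y : B, ‖((k + 1 : ℂ))⁻¹ • ∑ s, τ (y * star (g s : B)) • (g s : B)‖ ≤ ε * ‖y‖ ∧
        ‖((k + 1 : ℂ))⁻¹ • ∑ s, τ (y * (g s : B)) • star (g s : B)‖ ≤ ε * ‖y‖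

/-- Successive choice of the families. -/
def K_fam : Prop :=
  ∀ (B : Type u) [CStarAlgebra B] [PartialOrder B] [StarOrderedRing B] (τ : B →ₗ[ℂ] ℂ),
    IsTracialState τ → HasDixmier τ → HasOrth τ → ∀ (n : ℕ) (X : Set B), X.Finite →
    ∀ (K : ℕ) (ε : ℝ), 0 < ε → ∃ F : Fam B n, F.Good τ X K ε

/-- The family of the adjoints is also good. -/
def K_adj : Prop :=
  ∀ (B : Type u) [CStarAlgebra B] (τ : B →ₗ[ℂ] ℂ) (n : ℕ) (F : Fam B n) (X : Set B)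
    (K : ℕ) (ε : ℝ), F.Good τ X K ε → F.adj.Good τ X K ε

/-- Independence for functions of disjoint sets of letters. -/
def K_indep : Prop :=
  ∀ (n : ℕ) (k : Fin n → ℕ) (V : Type u) [AddCommGroup V] [Module ℂ V] (S : Finset (Fin n))
    (f : (∀ c : Fin n, Fin (k c + 1)) → ℂ) (h : (∀ c : Fin n, Fin (k c + 1)) → V),
    (∀ s s', (∀ c ∈ S, s c = s' c) → f s = f s') → (∀ s s', (∀ c ∉ S, s c = s' c) → h s = h s') →
    fav (∀ c : Fin n, Fin (k c + 1)) (fun s => f s • h s) =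
      fav (∀ c : Fin n, Fin (k c + 1)) f • fav (∀ c : Fin n, Fin (k c + 1)) h

/-- Averaging first over one letter. -/
def K_avgone : Prop :=
  ∀ (n : ℕ) (k : Fin n → ℕ) (V : Type u) [AddCommGroup V] [Module ℂ V] (c : Fin n)
    (h : (∀ c : Fin n, Fin (k c + 1)) → V),
    fav (∀ c : Fin n, Fin (k c + 1)) h = fav (∀ c : Fin n, Fin (k c + 1))
      (fun s => ((k c + 1 : ℂ))⁻¹ • ∑ t, h (Function.update s c t))

/-- Averages of products of two words. -/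
def K_word : Prop :=
  ∀ (B : Type u) [CStarAlgebra B] [PartialOrder B] [StarOrderedRing B] (τ : B →ₗ[ℂ] ℂ),
    IsTracialState τ → ∀ (n : ℕ) (F : Fam B n) (X : Set B) (x : CStarMatrix (Fin n) (Fin n) B)
    (K : ℕ) (ε : ℝ), 0 ≤ ε → F.Good τ X K ε → (∀ i j, x i j ∈ X ∨ star (x i j) ∈ X) →
    (∀ i j, ‖x i j‖ ≤ 1) → ∀ (i : Fin n) (σ σ' : List (Fin n)), σ.Nodup → σ'.Perm σ →
    4 * σ.length + 2 ≤ K →
    ‖fav F.Idx (fun s => star (rword x (F.val s) i σ) * rword x (F.val s) i σ') -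
      algebraMap ℂ B (if σ = σ' then (pword (pmat τ x) i σ : ℂ) else 0)‖ ≤ 2 * σ.length * ε

/-! ### Expansions -/

/-- Expansion of `Tw` in sequences of letters. -/
def K_expand : Prop :=
  ∀ (B : Type u) [CStarAlgebra B] (ι : Type) [Fintype ι] [DecidableEq ι] (R : ℕ) [NeZero R]
    (x : CStarMatrix ι ι B) (g : ι → unitary B) (ω : ι → ZMod R) (k : ℕ) (i j : ι),
    Tw x g ω k i j = ∑ σ : Fin (k + 1) → ι,
      if σ 0 = i ∧ σ (Fin.last k) = j then (∏ t, chi ω (σ t)) • sword x g σ else 0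

/-- Parseval for vector valued trigonometric polynomials. -/
def K_pars : Prop :=
  ∀ (ι : Type) [Fintype ι] [DecidableEq ι] (R : ℕ) [NeZero R]
    (W : Type v) [NormedAddCommGroup W] [InnerProductSpace ℂ W] (Y : (ι → ZMod R) → W),
    ∑ ω : ι → ZMod R, ‖∑ f, Chi f ω • Y f‖ ^ 2 =
      (Fintype.card (ι → ZMod R) : ℝ) * ∑ f, ‖Y f‖ ^ 2

/-- The norm of a matrix is at most the sum of the norms of its entries, and entries have norm
at most the norm of the matrix. -/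
def K_entries : Prop :=
  ∀ (B : Type u) [CStarAlgebra B] [PartialOrder B] [StarOrderedRing B]
    (ι : Type) [Fintype ι] [DecidableEq ι] (X : CStarMatrix ι ι B),
    ‖X‖ ≤ ∑ i, ∑ j, ‖X i j‖ ∧ ∀ i j, ‖X i j‖ ≤ ‖X‖

/-- Fourier expansion of `Tw`, and Parseval. -/
def K_fourier : Prop :=
  ∀ (B : Type u) [CStarAlgebra B] [PartialOrder B] [StarOrderedRing B]
    (ι : Type) [Fintype ι] [DecidableEq ι] (R : ℕ) [NeZero R]
    (x : CStarMatrix ι ι B) (g : ι → unitary B) (k : ℕ),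
    (∀ ω : ι → ZMod R, Tw x g ω k = ∑ f, Chi f ω • Yf x g R k f) ∧
    (x ∈ unitary (CStarMatrix ι ι B) →
      ∑ f : ι → ZMod R, star (Yf x g R k f) * Yf x g R k f = 1)

/-- Path sums of a doubly stochastic matrix. -/
def K_path : Prop :=
  ∀ (n : ℕ) (p : Fin n → Fin n → ℝ) (δ : ℝ), (∀ i j, 0 ≤ p i j) → (∀ j, ∑ i, p i j = 1) →
    (∀ i j, p i j ≤ δ) → ∀ (k : ℕ) (j : Fin n),
    ∑ σ ∈ univ.filter (fun σ : Fin (k + 1) → Fin n => σ (Fin.last k) = j ∧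
      Function.Injective σ), pword p (σ 0) (List.ofFn fun t : Fin k => σ t.succ) ≤ 1 ∧
    1 - (k + 1) ^ 2 * δ ≤ ∑ σ ∈ univ.filter (fun σ : Fin (k + 1) → Fin n =>
      σ (Fin.last k) = j ∧ Function.Injective σ),
        pword p (σ 0) (List.ofFn fun t : Fin k => σ t.succ)

/-- Gram matrices for good families. -/
def K_gram : Prop :=
  ∀ (B : Type u) [CStarAlgebra B] [PartialOrder B] [StarOrderedRing B] (τ : B →ₗ[ℂ] ℂ),
    IsTracialState τ → ∀ (n : ℕ) (F : Fam B n) (X : Set B) (x : CStarMatrix (Fin n) (Fin n) B)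
    (K : ℕ) (ε δ : ℝ), 0 ≤ ε → F.Good τ X K ε → (∀ i j, x i j ∈ X ∨ star (x i j) ∈ X) →
    x ∈ unitary (CStarMatrix (Fin n) (Fin n) B) → (∀ i j, pmat τ x i j ≤ δ) →
    ∀ (k R : ℕ) [NeZero R], k + 1 < R → 4 * k + 2 ≤ K →
      GramOK F.Idx F.val x R k (2 * k * n ^ (2 * k + 4) * ε) ((k + 1) ^ 2 * δ)

/-- Existence of the random unitaries. -/
def K_rand : Prop :=
  ∀ (B : Type u) [CStarAlgebra B] [PartialOrder B] [StarOrderedRing B] (τ : B →ₗ[ℂ] ℂ),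
    IsTracialState τ → HasDixmier τ → HasOrth τ → ∀ (n Q R : ℕ) [NeZero R], Q < R →
    ∀ x : CStarMatrix (Fin n) (Fin n) B, x ∈ unitary (CStarMatrix (Fin n) (Fin n) B) →
    ∀ δ : ℝ, (∀ i j, pmat τ x i j ≤ δ) → ∀ ε : ℝ, 0 < ε →
    ∃ (Ω : Type) (_ : Fintype Ω) (_ : Nonempty Ω) (G : Ω → Fin n → unitary B),
      ∀ k, k < Q → GramOK Ω G x R k ε (Q ^ 2 * δ) ∧
        GramOK Ω (fun s c => star (G s c)) (star x) R k ε (Q ^ 2 * δ)

/-- Flattening by a scalar unitary. -/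
def K_flat : Prop :=
  ∀ (B : Type u) [CStarAlgebra B] [PartialOrder B] [StarOrderedRing B] (τ : B →ₗ[ℂ] ℂ),
    IsTracialState τ → ∀ (n : ℕ), 0 < n → ∀ x : CStarMatrix (Fin n) (Fin n) B,
    x ∈ unitary (CStarMatrix (Fin n) (Fin n) B) →
    ∃ t : Matrix (Fin n) (Fin n) ℂ, t ∈ unitary (Matrix (Fin n) (Fin n) ℂ) ∧
      ∀ i j, pmat τ (x * tens t 1) i j ^ 3 ≤ 15 / n

/-! ### Bounds for homomorphisms -/

/-- The block bound with a general constant. -/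
def K_block : Prop :=
  ∀ (A : Type u) [CStarAlgebra A] [PartialOrder A] [StarOrderedRing A]
    (H : Type v) [NormedAddCommGroup H] [InnerProductSpace ℂ H] [CompleteSpace H]
    (w : A →ₗ[ℂ] (H →L[ℂ] H)) (τ : A →ₗ[ℂ] ℂ), IsHom w → IsTracialState τ → HasDixmier τ →
    ∀ c : ℝ, 0 ≤ c → (∀ b, ‖w b‖ ≤ c * ‖b‖) →
    ∀ (α β : Type) [Fintype α] [DecidableEq α] [Nonempty α] [Fintype β] [DecidableEq β]
      [Nonempty β] (γ : ℝ), 0 ≤ γ → (∀ Y : CStarMatrix β β A, ‖amp w β Y‖ ≤ γ * ‖Y‖) →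
      ∀ (X : CStarMatrix (α × β) (α × β) A) (ξ : HH (α × β) H),
        ‖amp w (α × β) X ξ‖ ^ 2 ≤ 18 * c ^ 4 * γ ^ 2 * ‖ξ‖ ^ 2 *
          (‖X‖ ^ 2 + 1 / (Fintype.card β : ℝ) * (tr τ (α × β) (star X * X)).re)

/-- The block bound for `m × m` matrices, `m ≤ q l`, with a general constant. -/
def K_embed : Prop :=
  ∀ (A : Type u) [CStarAlgebra A] [PartialOrder A] [StarOrderedRing A]
    (H : Type v) [NormedAddCommGroup H] [InnerProductSpace ℂ H] [CompleteSpace H]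
    (w : A →ₗ[ℂ] (H →L[ℂ] H)) (τ : A →ₗ[ℂ] ℂ), IsHom w → IsTracialState τ → HasDixmier τ →
    ∀ c : ℝ, 0 ≤ c → (∀ b, ‖w b‖ ≤ c * ‖b‖) →
    ∀ (m l q : ℕ), 0 < l → 0 < q → m ≤ q * l → ∀ γ : ℝ, 0 ≤ γ → LvlBd w l γ →
      ∀ (X : CStarMatrix (Fin m) (Fin m) A) (ξ : HH (Fin m) H),
        ‖amp w (Fin m) X ξ‖ ^ 2 ≤ 18 * c ^ 4 * γ ^ 2 * ‖ξ‖ ^ 2 *
          (‖X‖ ^ 2 + 1 / (l : ℝ) * (tr τ (Fin m) (star X * X)).re)

/-- A bound at level `L` holds at all smaller levels. -/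
def K_level : Prop :=
  ∀ (B : Type u) [CStarAlgebra B] [PartialOrder B] [StarOrderedRing B]
    (K : Type v) [NormedAddCommGroup K] [InnerProductSpace ℂ K] [CompleteSpace K]
    (w : B →ₗ[ℂ] (K →L[ℂ] K)) (L : ℕ) (γ : ℝ), 0 ≤ γ → LvlBd w L γ →
    ∀ (ι : Type) [Fintype ι] [DecidableEq ι], Fintype.card ι ≤ L →
      ∀ Y : CStarMatrix ι ι B, ‖amp w ι Y‖ ≤ γ * ‖Y‖

/-- The crude bound for block matrices. -/
def K_crude : Prop :=
  ∀ (B : Type u) [CStarAlgebra B] [PartialOrder B] [StarOrderedRing B]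
    (K : Type v) [NormedAddCommGroup K] [InnerProductSpace ℂ K] [CompleteSpace K]
    (w : B →ₗ[ℂ] (K →L[ℂ] K)) (L m : ℕ) (γ : ℝ), 0 ≤ γ → LvlBd w L γ →
      LvlBd w (m * L) (m * γ)

/-- The adjoint homomorphism. -/
def K_vmap : Prop :=
  ∀ (B : Type u) [CStarAlgebra B] [PartialOrder B] [StarOrderedRing B]
    (K : Type v) [NormedAddCommGroup K] [InnerProductSpace ℂ K] [CompleteSpace K]
    (w : B →ₗ[ℂ] (K →L[ℂ] K)),
    (∀ (ι : Type) [Fintype ι] [DecidableEq ι] (X : CStarMatrix ι ι B),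
      amp (vmap w) ι X = star (amp w ι (star X))) ∧
    (∀ L γ, LvlBd w L γ → LvlBd (vmap w) L γ) ∧
    (∀ c, (∀ b, ‖w b‖ ≤ c * ‖b‖) → ∀ b, ‖vmap w b‖ ≤ c * ‖b‖)

/-- Weighted column bound for matrices with few nonzero columns. -/
def K_wcol : Prop :=
  ∀ (B : Type u) [CStarAlgebra B] [PartialOrder B] [StarOrderedRing B]
    (K : Type v) [NormedAddCommGroup K] [InnerProductSpace ℂ K] [CompleteSpace K]
    (w : B →ₗ[ℂ] (K →L[ℂ] K)) (τ : B →ₗ[ℂ] ℂ), IsHom w → IsTracialState τ → HasDixmier τ →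
    ∀ c γ : ℝ, 0 ≤ c → 0 ≤ γ → (∀ b, ‖w b‖ ≤ c * ‖b‖) → ∀ L : ℕ, LvlBd w L γ →
    ∀ (ι : Type) [Fintype ι] [DecidableEq ι] (M : Finset ι), M.card ≤ L →
    ∀ (κ : Type) [Fintype κ] (Z : κ → CStarMatrix ι ι B), (∀ k i j, j ∉ M → Z k i j = 0) →
    ∀ (lam : ι → ℝ) (ε : ℝ), (∀ j, 0 ≤ lam j) → 0 < ε →
    ‖∑ k, star (Z k) * Z k - dgc B (fun j => if j ∈ M then lam j else 0)‖ ≤ ε →
    ∀ θ : HH ι K, ∑ k, ‖amp w ι (Z k) θ‖ ^ 2 ≤
      6 * c ^ 2 * γ ^ 2 * ∑ j ∈ M, (lam j + ε) * ‖θ j‖ ^ 2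

/-- The bound for the random vectors. -/
def K_generic : Prop :=
  ∀ (B : Type u) [CStarAlgebra B] [PartialOrder B] [StarOrderedRing B]
    (K : Type v) [NormedAddCommGroup K] [InnerProductSpace ℂ K] [CompleteSpace K]
    (w : B →ₗ[ℂ] (K →L[ℂ] K)) (τ : B →ₗ[ℂ] ℂ), IsHom w → IsTracialState τ → HasDixmier τ →
    ∀ c γ γn : ℝ, 0 ≤ c → 0 ≤ γ → 0 ≤ γn → (∀ b, ‖w b‖ ≤ c * ‖b‖) →
    ∀ L n : ℕ, 0 < n → LvlBd w L γ → LvlBd w n γn → ∀ (R k : ℕ) [NeZero R], k + 1 ≤ L →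
    k + 1 < R →
    ∀ (Ω : Type) [Fintype Ω] [Nonempty Ω] (G : Ω → Fin n → unitary B)
      (x y : CStarMatrix (Fin n) (Fin n) B), x ∈ unitary (CStarMatrix (Fin n) (Fin n) B) →
      y ∈ unitary (CStarMatrix (Fin n) (Fin n) B) → ∀ ε κ : ℝ, 0 < ε → 0 ≤ κ →
      GramOK Ω G x R k ε κ → ∀ θ : HH (Fin n) K,
      ∑ s, ∑ ω : Fin n → ZMod R, ‖amp w (Fin n) (y * Tw x (G s) ω k) θ‖ ^ 2 ≤
        (Fintype.card Ω * Fintype.card (Fin n → ZMod R) : ℝ) *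
          (6 * c ^ 2 * (γ ^ 2 * (1 + n ^ (k + 1) * ε) + γn ^ 2 * (κ + n ^ (k + 1) * ε)) *
            ‖θ‖ ^ 2)

/-- Forward and backward orbits of the random unitary `x g P`. -/
def K_orbit : Prop :=
  ∀ (B : Type u) [CStarAlgebra B] [PartialOrder B] [StarOrderedRing B]
    (K : Type v) [NormedAddCommGroup K] [InnerProductSpace ℂ K] [CompleteSpace K]
    (w : B →ₗ[ℂ] (K →L[ℂ] K)) (τ : B →ₗ[ℂ] ℂ), IsHom w → IsTracialState τ → HasDixmier τ →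
    ∀ γ : ℝ, 1 ≤ γ → (∀ b, ‖w b‖ ≤ γ * ‖b‖) →
    ∀ L m : ℕ, 0 < m → m ≤ L → LvlBd w L γ →
    ∀ (R : ℕ) [NeZero R], m < R →
    ∀ (Ω : Type) [Fintype Ω] [Nonempty Ω] (G : Ω → Fin (m * L) → unitary B)
      (x : CStarMatrix (Fin (m * L)) (Fin (m * L)) B),
      x ∈ unitary (CStarMatrix (Fin (m * L)) (Fin (m * L)) B) →
      (∀ k, k < m → GramOK Ω G x R k (1 / (12 * m ^ 2 * ((m * L : ℕ) : ℝ) ^ m))
          (1 / (12 * m ^ 2)) ∧
        GramOK Ω (fun s c => star (G s c)) (star x) R k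
          (1 / (12 * m ^ 2 * ((m * L : ℕ) : ℝ) ^ m)) (1 / (12 * m ^ 2))) →
      (∀ (θ : HH (Fin (m * L)) K) (k : ℕ), k < m →
        (Fintype.card Ω * Fintype.card (Fin (m * L) → ZMod R) : ℝ) * ‖θ‖ ^ 2 ≤
        8 * γ ^ 4 * ∑ s, ∑ ω : Fin (m * L) → ZMod R,
          ‖amp w (Fin (m * L)) ((x * gm (G s) * ph B ω) ^ k) θ‖ ^ 2) ∧
      (∀ (ζ : HH (Fin (m * L)) K) (q : ℕ), q < m →
        ∑ s, ∑ ω : Fin (m * L) → ZMod R,
          ‖amp w (Fin (m * L)) (star (x * gm (G s) * ph B ω) ^ (q + 1))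
            (amp w (Fin (m * L)) x ζ)‖ ^ 2 ≤
        (Fintype.card Ω * Fintype.card (Fin (m * L) → ZMod R) : ℝ) * (8 * γ ^ 4 * ‖ζ‖ ^ 2))

/-- The bound on flat unitaries. -/
def K_unit : Prop :=
  ∀ (B : Type u) [CStarAlgebra B] [PartialOrder B] [StarOrderedRing B]
    (K : Type v) [NormedAddCommGroup K] [InnerProductSpace ℂ K] [CompleteSpace K]
    (w : B →ₗ[ℂ] (K →L[ℂ] K)) (τ : B →ₗ[ℂ] ℂ), IsHom w → IsTracialState τ → HasDixmier τ →
    HasOrth τ → ∀ γ : ℝ, 1 ≤ γ → (∀ b, ‖w b‖ ≤ γ * ‖b‖) →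
    ∀ L m : ℕ, 0 < m → 25920 * m ^ 11 ≤ L → LvlBd w L γ →
    ∀ x : CStarMatrix (Fin (m * L)) (Fin (m * L)) B,
      x ∈ unitary (CStarMatrix (Fin (m * L)) (Fin (m * L)) B) →
      (∀ i j, pmat τ x i j ≤ 1 / (12 * m ^ 4)) →
      ‖amp w (Fin (m * L)) x‖ ≤ 108 * γ ^ 7

/-- The main inequality. -/
def K_main : Prop :=
  ∀ (B : Type u) [CStarAlgebra B] [PartialOrder B] [StarOrderedRing B]
    (K : Type v) [NormedAddCommGroup K] [InnerProductSpace ℂ K] [CompleteSpace K]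
    (w : B →ₗ[ℂ] (K →L[ℂ] K)) (τ : B →ₗ[ℂ] ℂ), IsHom w → IsTracialState τ → HasDixmier τ →
    HasOrth τ → ∀ γ : ℝ, 1 ≤ γ → (∀ b, ‖w b‖ ≤ γ * ‖b‖) →
    ∀ L m : ℕ, 0 < m → 25920 * m ^ 11 ≤ L → LvlBd w L γ → LvlBd w (m * L) (216 * γ ^ 7)

/-! ### From `M_L(N)` to `N` -/

/-- Similarity making a homomorphism of `M_L(N)` preserve adjoints on scalar matrices. -/
def K_sim : Prop :=
  ∀ (B : Type u) [CStarAlgebra B] [PartialOrder B] [StarOrderedRing B]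
    (H : Type v) [NormedAddCommGroup H] [InnerProductSpace ℂ H] [CompleteSpace H] (L : ℕ)
    (u : CStarMatrix (Fin L) (Fin L) B →ₗ[ℂ] (H →L[ℂ] H)), IsHom u → ∀ c : ℝ, 0 ≤ c →
    (∀ X, ‖u X‖ ≤ c * ‖X‖) → ∃ S S' : H →L[ℂ] H, S * S' = 1 ∧ S' * S = 1 ∧ ‖S‖ ≤ c ∧ ‖S'‖ ≤ c ∧
      ∀ s : Matrix (Fin L) (Fin L) ℂ,
        star (S * u (tens s 1) * S') = S * u (tens (star s) 1) * S'

/-- Matrix units: such a homomorphism is an amplification. -/
def K_units : Prop :=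
  ∀ (B : Type u) [CStarAlgebra B] [PartialOrder B] [StarOrderedRing B]
    (H : Type v) [NormedAddCommGroup H] [InnerProductSpace ℂ H] [CompleteSpace H] (L : ℕ),
    0 < L → ∀ (u : CStarMatrix (Fin L) (Fin L) B →ₗ[ℂ] (H →L[ℂ] H)), IsHom u →
    (∀ s : Matrix (Fin L) (Fin L) ℂ, star (u (tens s 1)) = u (tens (star s) 1)) →
    ∃ (K : Type v) (_ : NormedAddCommGroup K) (_ : InnerProductSpace ℂ K) (_ : CompleteSpace K)
      (w : B →ₗ[ℂ] (K →L[ℂ] K)) (V : HH (Fin L) K ≃ₗᵢ[ℂ] H), IsHom w ∧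
      ∀ X ξ, u X (V ξ) = V (amp w (Fin L) X ξ)

/-- Matrices of matrices. -/
def K_nest : Prop :=
  ∀ (B : Type u) [CStarAlgebra B] [PartialOrder B] [StarOrderedRing B]
    (K : Type v) [NormedAddCommGroup K] [InnerProductSpace ℂ K] [CompleteSpace K]
    (w : B →ₗ[ℂ] (K →L[ℂ] K)) (L m : ℕ) (C : ℝ), 0 ≤ C → LvlBd w (m * L) C →
    LvlBd (amp w (Fin L)) m C

/-- Transport of a level bound along an isometry and a similarity. -/
def K_transport : Prop :=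
  ∀ (B : Type u) [CStarAlgebra B] [PartialOrder B] [StarOrderedRing B]
    (H : Type v) [NormedAddCommGroup H] [InnerProductSpace ℂ H] [CompleteSpace H]
    (K : Type v) [NormedAddCommGroup K] [InnerProductSpace ℂ K] [CompleteSpace K]
    (u : B →ₗ[ℂ] (H →L[ℂ] H)) (w : B →ₗ[ℂ] (K →L[ℂ] K)) (V : K ≃ₗᵢ[ℂ] H) (S S' : H →L[ℂ] H)
    (c C : ℝ), 0 ≤ c → 0 ≤ C → S' * S = 1 → ‖S‖ ≤ c → ‖S'‖ ≤ c →
    (∀ X ξ, (S * u X * S') (V ξ) = V (w X ξ)) → ∀ m : ℕ, LvlBd w m C → LvlBd u m (c ^ 2 * C)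

/-- Transport of a level bound along an isomorphism of algebras. -/
def K_iso : Prop :=
  ∀ (A : Type u) [CStarAlgebra A] [PartialOrder A] [StarOrderedRing A]
    (B : Type u) [CStarAlgebra B] [PartialOrder B] [StarOrderedRing B] (φ : A ≃⋆ₐ[ℂ] B)
    (H : Type v) [NormedAddCommGroup H] [InnerProductSpace ℂ H] [CompleteSpace H]
    (u : A →ₗ[ℂ] (H →L[ℂ] H)) (w : B →ₗ[ℂ] (H →L[ℂ] H)) (C : ℝ), 0 ≤ C →
    (∀ a, w (φ a) = u a) → ∀ m : ℕ, LvlBd w m C → LvlBd u m C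

/-- Final form for `M_L(N)`. -/
def K_final : Prop :=
  ∀ (B : Type u) [CStarAlgebra B] [PartialOrder B] [StarOrderedRing B] (τ : B →ₗ[ℂ] ℂ),
    IsTracialState τ → HasDixmier τ → HasOrth τ →
    ∀ (H : Type v) [NormedAddCommGroup H] [InnerProductSpace ℂ H] [CompleteSpace H] (L m : ℕ),
    0 < m → 25920 * m ^ 11 ≤ L → ∀ (u : CStarMatrix (Fin L) (Fin L) B →ₗ[ℂ] (H →L[ℂ] H)),
    IsHom u → ∀ c : ℝ, 1 ≤ c → (∀ X, ‖u X‖ ≤ c * ‖X‖) → LvlBd u m (216 * c ^ 23)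

end H759R2.Kad
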