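import Mathlib
import Pool.Agent.H759R2.Kad.Defs
import Pool.Agent.H759R2.Kad.Props
import Pool.Agent.H759R2.Kad.Props2
import Pool.Agent.H759R2.Kad.Props3

/-!
Statements of the pieces of: completely bounded homomorphisms are similar to *-homomorphisms,
and derivations are inner. All index types live in `Type`.
-/

open scoped ComplexOrder InnerProductSpace ComplexConjugate
open Finset

noncomputable section

namespace H759R2.Kad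

universe u v

/-! ### Similarity -/

/-- Feedback connection of a unitary: algebraic part. -/
def S_alg : Prop :=
  ∀ (B : Type u) [CStarAlgebra B] [PartialOrder B] [StarOrderedRing B] (V e : B), V ∈ unitary B →
    IsSelfAdjoint e → e * e = e → ∀ ρ : ℝ, 0 ≤ ρ → ρ < 1 →
    ∃ Y : B, Y * (1 - (ρ : ℂ) • (e * V * e)) = 1 ∧ (1 - (ρ : ℂ) • (e * V * e)) * Y = 1 ∧
      ‖(1 - e) * V * (1 - e) + (ρ : ℂ) • ((1 - e) * V * e * Y * e * V * (1 - e))‖ ≤ 1 ∧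
      ‖(1 - e) * V * e * Y * e‖ ^ 2 ≤ 3 / (1 - ρ)

/-- Feedback connection and homomorphisms. -/
def S_feed : Prop :=
  ∀ (B : Type u) [CStarAlgebra B] [PartialOrder B] [StarOrderedRing B]
    (K : Type v) [NormedAddCommGroup K] [InnerProductSpace ℂ K] [CompleteSpace K]
    (U : B →ₗ[ℂ] (K →L[ℂ] K)), IsHom U → ∀ C : ℝ, 0 ≤ C → (∀ b, ‖U b‖ ≤ C * ‖b‖) →
    ∀ V e : B, V ∈ unitary B → IsSelfAdjoint e → e * e = e → ∀ ξ κ μ : K,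
      U e ξ = ξ → U e κ = 0 → U e μ = 0 → U V (ξ + μ) = ξ + κ → ‖κ‖ ≤ C * ‖μ‖

/-- Unitary freedom: two families of vectors with the same sum of rank one operators. -/
def S_free : Prop :=
  ∀ (K : Type v) [NormedAddCommGroup K] [InnerProductSpace ℂ K] [CompleteSpace K]
    (I : Type) [Fintype I] [DecidableEq I] (α β : I → K),
    (∀ x, ∑ i, ⟪α i, x⟫_ℂ • α i = ∑ i, ⟪β i, x⟫_ℂ • β i) →
    ∃ W : Matrix I I ℂ, W ∈ unitary (Matrix I I ℂ) ∧ ∀ i, α i = ∑ j, W i j • β j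

/-- The key inequality. -/
def S_key : Prop :=
  ∀ (A : Type u) [CStarAlgebra A] [PartialOrder A] [StarOrderedRing A]
    (H : Type v) [NormedAddCommGroup H] [InnerProductSpace ℂ H] [CompleteSpace H]
    (w : A →ₗ[ℂ] (H →L[ℂ] H)), IsHom w → ∀ C : ℝ, 0 ≤ C → (∀ m, LvlBd w m C) →
    ∀ (I J : Type) [Fintype I] [DecidableEq I] [Fintype J] [DecidableEq J]
      (g : I → unitary A) (ξ : I → H) (μ κ : J → H),
      (∀ x, ∑ i, ⟪w (g i : A) (ξ i), x⟫_ℂ • w (g i : A) (ξ i) + ∑ j, ⟪κ j, x⟫_ℂ • κ j =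
        ∑ i, ⟪ξ i, x⟫_ℂ • ξ i + ∑ j, ⟪μ j, x⟫_ℂ • μ j) →
      ∑ j, ‖κ j‖ ^ 2 ≤ C ^ 2 * ∑ j, ‖μ j‖ ^ 2

/-- The rank one operator `x ↦ ⟪ξ, x⟫ ξ`. -/
def rk {H : Type v} [NormedAddCommGroup H] [InnerProductSpace ℂ H] (ξ : H) : H →L[ℂ] H :=
  InnerProductSpace.rankOne ℂ ξ ξ

/-- Hahn-Banach: an invariant functional on rank one operators. -/
def S_hb : Prop :=
  ∀ (A : Type u) [CStarAlgebra A] [PartialOrder A] [StarOrderedRing A]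
    (H : Type v) [NormedAddCommGroup H] [InnerProductSpace ℂ H] [CompleteSpace H]
    (w : A →ₗ[ℂ] (H →L[ℂ] H)), IsHom w → ∀ C : ℝ, 1 ≤ C → (∀ m, LvlBd w m C) →
    ∃ φ : (H →L[ℂ] H) →ₗ[ℝ] ℝ, (∀ ξ, C⁻¹ * ‖ξ‖ ^ 2 ≤ φ (rk ξ) ∧ φ (rk ξ) ≤ C * ‖ξ‖ ^ 2) ∧
      ∀ (g : unitary A) (ξ : H), φ (rk (w (g : A) ξ)) = φ (rk ξ)

/-- From the functional to an operator. -/
def S_form : Prop :=
  ∀ (H : Type v) [NormedAddCommGroup H] [InnerProductSpace ℂ H] [CompleteSpace H]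
    (φ : (H →L[ℂ] H) →ₗ[ℝ] ℝ) (C : ℝ), 1 ≤ C →
    (∀ ξ, C⁻¹ * ‖ξ‖ ^ 2 ≤ φ (rk ξ) ∧ φ (rk ξ) ≤ C * ‖ξ‖ ^ 2) →
    ∃ P : H →L[ℂ] H, IsSelfAdjoint P ∧ ∀ ξ, ⟪ξ, P ξ⟫_ℂ = (φ (rk ξ) : ℂ)

/-- From an invariant operator to a similarity. -/
def S_root : Prop :=
  ∀ (A : Type u) [CStarAlgebra A] [PartialOrder A] [StarOrderedRing A]
    (H : Type v) [NormedAddCommGroup H] [InnerProductSpace ℂ H] [CompleteSpace H]
    (w : A →ₗ[ℂ] (H →L[ℂ] H)), IsHom w → ∀ C : ℝ, 1 ≤ C → ∀ P : H →L[ℂ] H, IsSelfAdjoint P →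
    (∀ ξ, C⁻¹ * ‖ξ‖ ^ 2 ≤ (⟪ξ, P ξ⟫_ℂ).re ∧ (⟪ξ, P ξ⟫_ℂ).re ≤ C * ‖ξ‖ ^ 2) →
    (∀ (g : unitary A) (ξ : H), ⟪w (g : A) ξ, P (w (g : A) ξ)⟫_ℂ = ⟪ξ, P ξ⟫_ℂ) →
    ∃ S S' : H →L[ℂ] H, S * S' = 1 ∧ S' * S = 1 ∧ ‖S‖ ^ 2 ≤ C ∧ ‖S'‖ ^ 2 ≤ C ∧
      ∀ a, star (S * w a * S') = S * w (star a) * S'

/-- Completely bounded homomorphisms are similar to *-homomorphisms. -/
def S_final : Prop :=
  ∀ (A : Type u) [CStarAlgebra A] [PartialOrder A] [StarOrderedRing A]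
    (H : Type v) [NormedAddCommGroup H] [InnerProductSpace ℂ H] [CompleteSpace H]
    (w : A →ₗ[ℂ] (H →L[ℂ] H)), IsHom w → ∀ C : ℝ, 1 ≤ C → (∀ m, LvlBd w m C) →
    ∃ S S' : H →L[ℂ] H, S * S' = 1 ∧ S' * S = 1 ∧ ‖S‖ ^ 2 ≤ C ∧ ‖S'‖ ^ 2 ≤ C ∧
      ∀ a, star (S * w a * S') = S * w (star a) * S'

/-! ### Derivations -/

/-- The homomorphism `[[π, D], [0, π]]`. -/
def uD {A : Type u} [CStarAlgebra A] {H : Type v} [NormedAddCommGroup H]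
    [InnerProductSpace ℂ H] [CompleteSpace H] (π : A →⋆ₐ[ℂ] (H →L[ℂ] H))
    (D : A →ₗ[ℂ] (H →L[ℂ] H)) : A →ₗ[ℂ] (HH (Fin 2) H →L[ℂ] HH (Fin 2) H) where
  toFun a := opMat fun i j => if i = j then π a else if i = 0 then D a else 0
  map_add' a b := by
    ext v i
    fin_cases i <;> simp [opMat_apply, Fin.sum_univ_two] <;> abel
  map_smul' c a := by
    ext v i
    fin_cases i <;> simp [opMat_apply, Fin.sum_univ_two]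

/-- It is a bounded homomorphism. -/
def D_hom : Prop :=
  ∀ (A : Type u) [CStarAlgebra A] (H : Type v) [NormedAddCommGroup H] [InnerProductSpace ℂ H]
    [CompleteSpace H] (π : A →⋆ₐ[ℂ] (H →L[ℂ] H)) (D : A →ₗ[ℂ] (H →L[ℂ] H)),
    (∀ a b, D (a * b) = π a * D b + D a * π b) → ∀ M : ℝ, 0 ≤ M → (∀ a, ‖D a‖ ≤ M * ‖a‖) →
    IsHom (uD π D) ∧ ∀ a, ‖uD π D a‖ ≤ (1 + M) * ‖a‖

/-- If it is similar to a *-homomorphism, the derivation is inner. -/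
def D_inner : Prop :=
  ∀ (A : Type u) [CStarAlgebra A] (H : Type v) [NormedAddCommGroup H] [InnerProductSpace ℂ H]
    [CompleteSpace H] (π : A →⋆ₐ[ℂ] (H →L[ℂ] H)) (D : A →ₗ[ℂ] (H →L[ℂ] H)),
    (∀ a b, D (a * b) = π a * D b + D a * π b) →
    ∀ S S' : HH (Fin 2) H →L[ℂ] HH (Fin 2) H, S * S' = 1 → S' * S = 1 →
    (∀ a, star (S * uD π D a * S') = S * uD π D (star a) * S') →
    ∃ T : H →L[ℂ] H, ‖T‖ ≤ ‖S‖ * ‖S'‖ ∧ ∀ a, D a = T * π a - π a * T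

/-- Scaling: a derivation of norm at most `M` is implemented by an operator of norm at most a
constant times `M`, if all homomorphisms of norm at most `2` are similar to *-homomorphisms with
similarity constants at most `R`. -/
def D_scale : Prop :=
  ∀ (A : Type u) [CStarAlgebra A] (H : Type v) [NormedAddCommGroup H] [InnerProductSpace ℂ H]
    [CompleteSpace H] (R : ℝ), 0 ≤ R →
    (∀ w : A →ₗ[ℂ] (HH (Fin 2) H →L[ℂ] HH (Fin 2) H), IsHom w → (∀ a, ‖w a‖ ≤ 2 * ‖a‖) →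
      ∃ S S' : HH (Fin 2) H →L[ℂ] HH (Fin 2) H, S * S' = 1 ∧ S' * S = 1 ∧ ‖S‖ * ‖S'‖ ≤ R ∧
        ∀ a, star (S * w a * S') = S * w (star a) * S') →
    ∀ (π : A →⋆ₐ[ℂ] (H →L[ℂ] H)) (D : A →ₗ[ℂ] (H →L[ℂ] H)),
    (∀ a b, D (a * b) = π a * D b + D a * π b) → ∀ M : ℝ, 0 ≤ M → (∀ a, ‖D a‖ ≤ M * ‖a‖) →
    ∃ T : H →L[ℂ] H, ‖T‖ ≤ R * M ∧ ∀ a, D a = T * π a - π a * T

end H759R2.Kad
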