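import Mathlib
import Pool.Agent.H759R2.Kad.Defs
import Pool.Agent.H759R2.Kad.Stmt

/-!
From the plain statements to the bundled maps of Mathlib.
-/

open scoped ComplexOrder InnerProductSpace

noncomputable section

namespace H759R2.Kad

universe u v

variable {A : Type u} [CStarAlgebra A] {H : Type v} [NormedAddCommGroup H]
  [InnerProductSpace ℂ H] [CompleteSpace H]

omit [CompleteSpace H] in
theorem IsLin.zero' {T : A → Op H} (h : IsLin T) : T 0 = 0 := by
  ext x
  have h1 := h 0 0 0 x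
  have h2 := h 1 0 0 x
  simp only [ev, smul_zero, add_zero, zero_smul, one_smul] at h1 h2
  have : (T 0) x = 0 := by
    have := h2
    simpa using this
  simpa using this

omit [CompleteSpace H] in
theorem IsLin.add' {T : A → Op H} (h : IsLin T) (a b : A) : T (a + b) = T a + T b := by
  ext x
  have h1 := h 1 a b x
  simpa [ev] using h1

omit [CompleteSpace H] in
theorem IsLin.smul' {T : A → Op H} (h : IsLin T) (c : ℂ) (a : A) : T (c • a) = c • T a := by
  ext x
  have h1 := h c a 0 x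
  have h0 := h.zero'
  simpa [ev, h0] using h1

/-- The bundled *-homomorphism. -/
def IsStarHom.toHom {π : A → Op H} (h : IsStarHom π) : A →⋆ₐ[ℂ] (H →L[ℂ] H) where
  toFun := π
  map_one' := by
    ext x
    exact h.one x
  map_mul' a b := by
    ext x
    exact h.mul a b x
  map_zero' := h.lin.zero'
  map_add' := h.lin.add'
  commutes' c := by
    have h1 : π 1 = 1 := by
      ext x
      exact h.one x
    rw [Algebra.algebraMap_eq_smul_one, h.lin.smul', h1, Algebra.algebraMap_eq_smul_one]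
  map_star' a := by
    rw [ContinuousLinearMap.star_eq_adjoint, ContinuousLinearMap.eq_adjoint_iff]
    intro x y
    exact h.adj a x y

theorem IsStarHom.toHom_apply {π : A → Op H} (h : IsStarHom π) (a : A) : h.toHom a = π a := rfl

omit [CompleteSpace H] in
theorem IsBddDerivation.norm_le {π D : A → Op H} {M : ℝ} (h : IsBddDerivation π D M) (a : A) :
    ‖D a‖ ≤ |M| * ‖a‖ := by
  refine ContinuousLinearMap.opNorm_le_bound _ (by positivity) fun x => ?_
  refine (h.bound a x).trans ?_
  have := le_abs_self M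
  gcongr

/-- The bundled derivation. -/
def IsBddDerivation.toCLM {π D : A → Op H} {M : ℝ} (h : IsBddDerivation π D M) :
    A →L[ℂ] (H →L[ℂ] H) :=
  LinearMap.mkContinuous
    { toFun := D
      map_add' := h.lin.add'
      map_smul' := h.lin.smul' } |M| h.norm_le

theorem IsBddDerivation.toCLM_apply {π D : A → Op H} {M : ℝ} (h : IsBddDerivation π D M) (a : A) :
    h.toCLM a = D a := rfl

theorem IsBddDerivation.toCLM_norm {π D : A → Op H} {M : ℝ} (h : IsBddDerivation π D M) :
    ‖h.toCLM‖ ≤ |M| := LinearMap.mkContinuous_norm_le _ (abs_nonneg _) _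

variable [PartialOrder A] [StarOrderedRing A]

omit [CompleteSpace H] in
/-- An operator norm bound for the amplification gives `AmpNormLe`. -/
theorem ampNormLe_of {T : A → Op H} (T' : A →ₗ[ℂ] (H →L[ℂ] H)) (hT : ∀ a, T' a = T a) {n : ℕ}
    {C C' : ℝ} (hC : |C'| = |C|)
    (h : ∀ X : CStarMatrix (Fin n) (Fin n) A, ‖amp T' (Fin n) X‖ ≤ C' * ‖X‖) :
    AmpNormLe T n C := by
  intro X x
  have h1 : ‖amp T' (Fin n) X (WithLp.toLp 2 x)‖ ≤ C' * ‖X‖ * ‖(WithLp.toLp 2 x : HH (Fin n) H)‖ :=
    (ContinuousLinearMap.le_opNorm _ _).trans (by gcongr; exact h X)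
  have h2 : ‖amp T' (Fin n) X (WithLp.toLp 2 x)‖ ^ 2 ≤
      (C' * ‖X‖ * ‖(WithLp.toLp 2 x : HH (Fin n) H)‖) ^ 2 := by gcongr
  have h3 : (C' * ‖X‖ * ‖(WithLp.toLp 2 x : HH (Fin n) H)‖) ^ 2 =
      (C * ‖X‖) ^ 2 * ‖(WithLp.toLp 2 x : HH (Fin n) H)‖ ^ 2 := by
    rw [mul_pow, mul_pow, mul_pow, ← sq_abs C', hC, sq_abs]
  rw [h3, PiLp.norm_sq_eq_of_L2, PiLp.norm_sq_eq_of_L2] at h2
  simp only [amp_apply, hT] at h2
  exact h2

end H759R2.Kad
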