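import Mathlib
import Pool.Agent.H759R2.Kad.Defs
import Pool.Agent.H759R2.Kad.Stmt
import Pool.Agent.H759R2.Kad.Bridge
import Pool.Agent.H759R2.Kad.Props2

/-!
Plain statement and bridge for bounded homomorphisms.
-/

open scoped ComplexOrder InnerProductSpace

noncomputable section

namespace H759R2.Kad

universe u v

variable {A : Type u} [CStarAlgebra A] {H : Type v} [NormedAddCommGroup H]
  [InnerProductSpace ℂ H]

/-- `w : A → B(H)` is a unital homomorphism (linear, multiplicative, `w 1 = 1`; nothing is assumed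
about adjoints) with norm at most `C`. -/
structure IsBddHom (w : A → Op H) (C : ℝ) : Prop where
  lin : IsLin w
  mul : ∀ a b x, ev (w (a * b)) x = ev (w a) (ev (w b) x)
  one : ∀ x, ev (w 1) x = x
  bound : ∀ a x, ‖ev (w a) x‖ ≤ C * ‖a‖ * ‖x‖

/-- The bundled linear map of a plain linear map. -/
def IsBddHom.toLin {w : A → Op H} {C : ℝ} (h : IsBddHom w C) : A →ₗ[ℂ] (H →L[ℂ] H) where
  toFun := w
  map_add' := h.lin.add'
  map_smul' := h.lin.smul'

theorem IsBddHom.toLin_apply {w : A → Op H} {C : ℝ} (h : IsBddHom w C) (a : A) :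
    h.toLin a = w a := rfl

theorem IsBddHom.isHom {w : A → Op H} {C : ℝ} (h : IsBddHom w C) : IsHom h.toLin where
  mul a b := by
    ext x
    exact h.mul a b x
  one := by
    ext x
    exact h.one x

theorem IsBddHom.norm_le {w : A → Op H} {C : ℝ} (h : IsBddHom w C) (hC : 0 ≤ C) (a : A) :
    ‖h.toLin a‖ ≤ C * ‖a‖ :=
  ContinuousLinearMap.opNorm_le_bound _ (by positivity) fun x => h.bound a x

end H759R2.Kad
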