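import Mathlib
import Pool.Agent.H759R2.Kad.Defs
import Pool.Agent.H759R2.Kad.Props
import Pool.Agent.H759R2.Kad.Props3
import Pool.Agent.H759R2.Kad.Stmt3

/-!
Statements of the pieces of: II_1 factors belong to the class of the main theorem.
-/

open scoped ComplexOrder InnerProductSpace ComplexConjugate
open Finset

noncomputable section

namespace H759R2.Kad

universe u v

section vn

variable {H : Type u} [NormedAddCommGroup H] [InnerProductSpace ℂ H] [CompleteSpace H]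

instance vn_isClosed (M : VonNeumannAlgebra H) :
    IsClosed (M.toStarSubalgebra : Set (H →L[ℂ] H)) := by
  have h : (M.toStarSubalgebra : Set (H →L[ℂ] H)) =
      Set.centralizer (Set.centralizer (M : Set (H →L[ℂ] H))) := by
    rw [VonNeumannAlgebra.centralizer_centralizer]
    rfl
  rw [h]
  exact Set.isClosed_centralizer _

/-- `M` is a II₁ factor with trace `τ`: its centre is trivial, it is infinite dimensional, and `τ`
is a faithful tracial state. -/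
structure IsII1 (M : VonNeumannAlgebra H) (τ : M.toStarSubalgebra →ₗ[ℂ] ℂ) : Prop where
  center : ∀ z ∈ M, (∀ a ∈ M, z * a = a * z) → ∃ c : ℂ, z = c • 1
  infinite : ¬ FiniteDimensional ℂ M.toStarSubalgebra
  trace : IsTracialState τ
  faithful : ∀ a : M.toStarSubalgebra, τ (star a * a) = 0 → a = 0

/-- Trivial centre. -/
def IsFac (M : VonNeumannAlgebra H) : Prop :=
  ∀ z ∈ M, (∀ a ∈ M, z * a = a * z) → ∃ c : ℂ, z = c • 1

/-- Self-adjoint projection. -/
def IsPr (p : H →L[ℂ] H) : Prop := star p = p ∧ p * p = p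

/-- Partial isometry. -/
def IsPI (v : H →L[ℂ] H) : Prop := v * star v * v = v

/-- `w` extends `v`. -/
def Ext (v w : H →L[ℂ] H) : Prop := w * (star v * v) = v

end vn

/-- Range projections. -/
def F_range : Prop :=
  ∀ (H : Type u) [NormedAddCommGroup H] [InnerProductSpace ℂ H] [CompleteSpace H]
    (M : VonNeumannAlgebra H), ∀ b ∈ M, ∃ p ∈ M, IsPr p ∧ p * b = b ∧
      ∀ x : H →L[ℂ] H, x * b = 0 → x * p = 0

/-- Partial isometry of the polar decomposition. -/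
def F_polar : Prop :=
  ∀ (H : Type u) [NormedAddCommGroup H] [InnerProductSpace ℂ H] [CompleteSpace H]
    (M : VonNeumannAlgebra H), ∀ x ∈ M, ∃ v ∈ M, IsPI v ∧ (v * star v) * x = x ∧
      (∀ y : H →L[ℂ] H, y * x = 0 → y * v = 0) ∧ ∀ y : H →L[ℂ] H, x * y = 0 → v * y = 0

/-- In a factor nonzero projections are joined. -/
def F_join : Prop :=
  ∀ (H : Type u) [NormedAddCommGroup H] [InnerProductSpace ℂ H] [CompleteSpace H]
    (M : VonNeumannAlgebra H), IsFac M → ∀ p ∈ M, ∀ q ∈ M, IsPr p → IsPr q → p ≠ 0 → q ≠ 0 →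
      ∃ a ∈ M, q * a * p ≠ 0

/-- Upper bounds of chains of partial isometries. -/
def F_chain : Prop :=
  ∀ (H : Type u) [NormedAddCommGroup H] [InnerProductSpace ℂ H] [CompleteSpace H]
    (M : VonNeumannAlgebra H) (C : Set (H →L[ℂ] H)), C.Nonempty → (∀ v ∈ C, v ∈ M ∧ IsPI v) →
    (∀ v ∈ C, ∀ w ∈ C, Ext v w ∨ Ext w v) →
    ∃ V ∈ M, IsPI V ∧ (∀ v ∈ C, Ext v V) ∧
      ∀ a b : H →L[ℂ] H, (∀ v ∈ C, a * v * b = 0) → a * V * b = 0

/-- Comparability of projections in a factor. -/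
def F_comp : Prop :=
  ∀ (H : Type u) [NormedAddCommGroup H] [InnerProductSpace ℂ H] [CompleteSpace H]
    (M : VonNeumannAlgebra H), IsFac M → ∀ p ∈ M, ∀ q ∈ M, IsPr p → IsPr q →
      ∃ v ∈ M, (star v * v = p ∧ q * v = v) ∨ (v * star v = q ∧ v * p = v)

/-- Dixmier property of factors with a tracial state. -/
def F_dix : Prop :=
  ∀ (H : Type u) [NormedAddCommGroup H] [InnerProductSpace ℂ H] [CompleteSpace H]
    (M : VonNeumannAlgebra H) (τ : M.toStarSubalgebra →ₗ[ℂ] ℂ), IsFac M → IsTracialState τ →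
      HasDixmier τ

/-- No minimal projections. -/
def F_nomin : Prop :=
  ∀ (H : Type u) [NormedAddCommGroup H] [InnerProductSpace ℂ H] [CompleteSpace H]
    (M : VonNeumannAlgebra H) (τ : M.toStarSubalgebra →ₗ[ℂ] ℂ), IsII1 M τ →
    ∀ p ∈ M, IsPr p → p ≠ 0 → ∃ q ∈ M, IsPr q ∧ p * q = q ∧ q ≠ 0 ∧ q ≠ p

/-- Halving the unit. -/
def F_half : Prop :=
  ∀ (H : Type u) [NormedAddCommGroup H] [InnerProductSpace ℂ H] [CompleteSpace H]
    (M : VonNeumannAlgebra H) (τ : M.toStarSubalgebra →ₗ[ℂ] ℂ), IsII1 M τ →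
    ∃ v ∈ M, v * v = 0 ∧ star v * v + v * star v = 1

/-- `M = M₂(N)`. -/
def F_two : Prop :=
  ∀ (H : Type u) [NormedAddCommGroup H] [InnerProductSpace ℂ H] [CompleteSpace H]
    (M : VonNeumannAlgebra H) (τ : M.toStarSubalgebra →ₗ[ℂ] ℂ), IsII1 M τ →
    ∃ (N : VonNeumannAlgebra H) (τ' : N.toStarSubalgebra →ₗ[ℂ] ℂ), IsII1 N τ' ∧
      Nonempty (M.toStarSubalgebra ≃⋆ₐ[ℂ] CStarMatrix (Fin 2) (Fin 2) N.toStarSubalgebra)

/-- `M = M_{2^k}(N)`. -/
def F_pow : Prop :=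
  ∀ (H : Type u) [NormedAddCommGroup H] [InnerProductSpace ℂ H] [CompleteSpace H]
    (M : VonNeumannAlgebra H) (τ : M.toStarSubalgebra →ₗ[ℂ] ℂ), IsII1 M τ → ∀ k : ℕ,
    ∃ (N : VonNeumannAlgebra H) (τ' : N.toStarSubalgebra →ₗ[ℂ] ℂ), IsII1 N τ' ∧
      Nonempty (M.toStarSubalgebra ≃⋆ₐ[ℂ]
        CStarMatrix (Fin (2 ^ k)) (Fin (2 ^ k)) N.toStarSubalgebra)

/-- Orthogonal unitaries. -/
def F_orth : Prop :=
  ∀ (H : Type u) [NormedAddCommGroup H] [InnerProductSpace ℂ H] [CompleteSpace H]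
    (M : VonNeumannAlgebra H) (τ : M.toStarSubalgebra →ₗ[ℂ] ℂ), IsII1 M τ → HasOrth τ

/-- II₁ factors are in the class. -/
def F_class : Prop :=
  ∀ (H : Type u) [NormedAddCommGroup H] [InnerProductSpace ℂ H] [CompleteSpace H]
    (M : VonNeumannAlgebra H) (τ : M.toStarSubalgebra →ₗ[ℂ] ℂ), IsII1 M τ →
    ∀ L₀ : ℕ, ∃ L, L₀ ≤ L ∧ IsMatDixmier M.toStarSubalgebra L

end H759R2.Kad
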