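import Mathlib
import Pool.Agent.H759R2.Kad.Defs
import Pool.Agent.H759R2.Kad.Props
import Pool.Agent.H759R2.Kad.Props2
import Pool.Agent.H759R2.Kad.Props3
import Pool.Agent.H759R2.Kad.Props4
import Pool.Agent.H759R2.Kad.Props5

/-!
Statements of the pieces of the structure theory (comparison, traces, infinite projections) used in
the reduction of the general case. Everything is stated for an abstract unital C*-algebra `A` with
the properties `Wst A`, which hold for von Neumann algebras.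
-/

open scoped ComplexOrder InnerProductSpace ComplexConjugate
open Finset

noncomputable section

namespace H759R2.Kad

universe u v

section defs

variable {A : Type u} [CStarAlgebra A]

/-- Projection. -/
def Prj (p : A) : Prop := star p = p ∧ p * p = p

/-- Central projection. -/
def CPrj (z : A) : Prop := Prj z ∧ ∀ a, z * a = a * z

/-- Positive element. -/
def Pos (x : A) : Prop := ∃ y, x = star y * y

/-- `p` is equivalent to a subprojection of `q`. -/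
def Sbe (p q : A) : Prop := ∃ v, star v * v = p ∧ q * v = v

/-- Partial isometry. -/
def PIs (v : A) : Prop := v * star v * v = v

/-- `w` extends the partial isometry `v`. -/
def Exd (v w : A) : Prop := w * (star v * v) = v

/-- Nonempty chain of partial isometries. -/
def IsChn (C : Set A) : Prop :=
  C.Nonempty ∧ (∀ v ∈ C, PIs v) ∧ ∀ v ∈ C, ∀ w ∈ C, Exd v w ∨ Exd w v

/-- `V` is the least upper bound of the chain `C`. -/
structure UB (C : Set A) (V : A) : Prop where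
  pi : PIs V
  ext : ∀ v ∈ C, Exd v V
  ann : ∀ a b, (∀ v ∈ C, a * v * b = 0) → a * V * b = 0

/-- Normal positive functional. -/
structure Nrm (φ : A →ₗ[ℂ] ℂ) : Prop where
  pos : ∀ a, 0 ≤ φ (star a * a)
  chain : ∀ (w : A) (C : Set A) (V : A), IsChn C → UB C V → ∀ ε : ℝ, 0 < ε → ∃ v ∈ C,
    (φ (w * (star V * V) * star w)).re - ε ≤ (φ (w * (star v * v) * star w)).re ∧
    (φ (w * (V * star V) * star w)).re - ε ≤ (φ (w * (v * star v) * star w)).re

/-- `v 0, ..., v (n-1)` are partial isometries with initial projection `p` and orthogonal ranges. -/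
structure Tup {n : ℕ} (v : Fin n → A) (p : A) : Prop where
  pr : Prj p
  rel : ∀ i j, star (v i) * v j = if i = j then p else 0

/-- Finite projection. -/
def Fnt (z : A) : Prop := ∀ v, star v * v = z → z * v = v → v * star v = z

/-- Positive tracial functional not vanishing at `z`. -/
structure TrOn (τ : A →ₗ[ℂ] ℂ) (z : A) : Prop where
  pos : ∀ a, 0 ≤ τ (star a * a)
  comm : ∀ a b, τ (a * b) = τ (b * a)
  one : τ z = 1

end defs

/-- The properties of von Neumann algebras that are used. -/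
structure Wst (A : Type u) [CStarAlgebra A] : Prop where
  chain : ∀ C : Set A, IsChn C → ∃ V, UB C V
  polar : ∀ x : A, ∃ v b, PIs v ∧ Pos b ∧ b * b = star x * x ∧ x = v * b ∧ star v * v * b = b ∧
    (v * star v) * x = x ∧ (∀ y, y * x = 0 → y * v = 0) ∧ ∀ y, x * y = 0 → v * y = 0
  cen : ∀ p q : A, Prj p → Prj q → (∀ a, q * a * p = 0) → ∃ z, CPrj z ∧ z * p = p ∧ z * q = 0
  spec : ∀ (s a : A) (t : ℝ), Prj s → star a = a → s * a = a →
    ∃ e, Prj e ∧ s * e = e ∧ e * a = a * e ∧ Pos (a * e - (t : ℂ) • e) ∧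
      Pos ((t : ℂ) • (s - e) - a * (s - e))
  sep : ∀ p : A, Prj p → p ≠ 0 → ∃ φ : A →ₗ[ℂ] ℂ, Nrm φ ∧ φ p ≠ 0

/-- The consequences that are used in the localisation. -/
structure VN (A : Type u) [CStarAlgebra A] : Prop where
  comp : ∀ p q : A, Prj p → Prj q →
    ∃ z, CPrj z ∧ Sbe (z * p) (z * q) ∧ Sbe ((1 - z) * q) ((1 - z) * p)
  tup : ∀ (k : ℕ) (s : A), Prj s → ∃ (v : Fin (k + 1) → A) (p : A), Tup v p ∧ v 0 = p ∧
    (∀ i, s * v i = v i) ∧ ∀ (t : Fin (k + 1) → A) (p' : A), Tup t p' →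
      (∀ i, (s - ∑ j, v j * star (v j)) * t i = t i) → p' = 0
  spec : ∀ (s a : A) (t : ℝ), Prj s → star a = a → s * a = a →
    ∃ e, Prj e ∧ s * e = e ∧ e * a = a * e ∧ Pos (a * e - (t : ℂ) • e) ∧
      Pos ((t : ℂ) • (s - e) - a * (s - e))
  alt : ∀ e : A, CPrj e → (∀ z, CPrj z → e * z = z → z ≠ 0 → ¬ ∃ τ : A →ₗ[ℂ] ℂ, TrOn τ z) →
    ∃ s₁ s₂ : A, star s₁ * s₁ = e ∧ star s₂ * s₂ = e ∧ star s₁ * s₂ = 0 ∧ e * s₁ = s₁ ∧
      e * s₂ = s₂

/-! ### Concrete von Neumann algebras -/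

/-- Strong convergence of chains. -/
def C_chain : Prop :=
  ∀ (H : Type u) [NormedAddCommGroup H] [InnerProductSpace ℂ H] [CompleteSpace H]
    (M : VonNeumannAlgebra H) (C : Set M.toStarSubalgebra), IsChn C →
    (∃ V, UB C V) ∧ ∀ V : M.toStarSubalgebra, UB C V → ∀ (n : ℕ) (x : Fin n → H) (ε : ℝ), 0 < ε →
      ∃ v ∈ C, ∀ i, ‖(V : H →L[ℂ] H) (x i) - (v : H →L[ℂ] H) (x i)‖ ≤ ε ∧
        ‖star (V : H →L[ℂ] H) (x i) - star (v : H →L[ℂ] H) (x i)‖ ≤ ε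

/-- Normality of vector functionals. -/
def C_sep : Prop :=
  ∀ (H : Type u) [NormedAddCommGroup H] [InnerProductSpace ℂ H] [CompleteSpace H]
    (M : VonNeumannAlgebra H) (p : M.toStarSubalgebra), Prj p → p ≠ 0 →
      ∃ φ : M.toStarSubalgebra →ₗ[ℂ] ℂ, Nrm φ ∧ φ p ≠ 0

/-- Polar decomposition. -/
def C_polar : Prop :=
  ∀ (H : Type u) [NormedAddCommGroup H] [InnerProductSpace ℂ H] [CompleteSpace H]
    (M : VonNeumannAlgebra H) (x : M.toStarSubalgebra), ∃ v b, PIs v ∧ Pos b ∧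
      b * b = star x * x ∧ x = v * b ∧ star v * v * b = b ∧
      (v * star v) * x = x ∧ (∀ y, y * x = 0 → y * v = 0) ∧ ∀ y, x * y = 0 → v * y = 0

/-- Central disjointness. -/
def C_cen : Prop :=
  ∀ (H : Type u) [NormedAddCommGroup H] [InnerProductSpace ℂ H] [CompleteSpace H]
    (M : VonNeumannAlgebra H) (p q : M.toStarSubalgebra), Prj p → Prj q →
      (∀ a, q * a * p = 0) → ∃ z, CPrj z ∧ z * p = p ∧ z * q = 0

/-- Spectral projections. -/
def C_spec : Prop :=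
  ∀ (H : Type u) [NormedAddCommGroup H] [InnerProductSpace ℂ H] [CompleteSpace H]
    (M : VonNeumannAlgebra H) (s a : M.toStarSubalgebra) (t : ℝ), Prj s → star a = a →
      s * a = a → ∃ e, Prj e ∧ s * e = e ∧ e * a = a * e ∧ Pos (a * e - (t : ℂ) • e) ∧
        Pos ((t : ℂ) • (s - e) - a * (s - e))

/-- Von Neumann algebras have the properties. -/
def C_wst : Prop :=
  ∀ (H : Type u) [NormedAddCommGroup H] [InnerProductSpace ℂ H] [CompleteSpace H]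
    (M : VonNeumannAlgebra H), Wst M.toStarSubalgebra

/-! ### Comparison -/

/-- Comparability. -/
def W_comp : Prop :=
  ∀ (A : Type u) [CStarAlgebra A], Wst A → ∀ p q : A, Prj p → Prj q →
    ∃ z, CPrj z ∧ Sbe (z * p) (z * q) ∧ Sbe ((1 - z) * q) ((1 - z) * p)

/-- Maximal tuples. -/
def W_tup : Prop :=
  ∀ (A : Type u) [CStarAlgebra A], Wst A → ∀ (k : ℕ) (s : A), Prj s →
    ∃ (v : Fin (k + 1) → A) (p : A), Tup v p ∧ v 0 = p ∧ (∀ i, s * v i = v i) ∧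
      ∀ (t : Fin (k + 1) → A) (p' : A), Tup t p' →
        (∀ i, (s - ∑ j, v j * star (v j)) * t i = t i) → p' = 0

/-- Suprema of chains of projections. -/
def W_supp : Prop :=
  ∀ (A : Type u) [CStarAlgebra A], Wst A → ∀ C : Set A, C.Nonempty → (∀ p ∈ C, Prj p) →
    (∀ p ∈ C, ∀ q ∈ C, q * p = p ∨ p * q = q) →
    ∃ P, Prj P ∧ (∀ p ∈ C, P * p = p) ∧ (∀ a b, (∀ p ∈ C, a * p * b = 0) → a * P * b = 0) ∧
      ∀ φ : A →ₗ[ℂ] ℂ, Nrm φ → ∀ (w : A) (ε : ℝ), 0 < ε →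
        ∃ p ∈ C, (φ (w * P * star w)).re - ε ≤ (φ (w * p * star w)).re

/-- Cancellation in finite projections. -/
def W_canc : Prop :=
  ∀ (A : Type u) [CStarAlgebra A], Wst A → ∀ s : A, Prj s → Fnt s → ∀ v : A, PIs v →
    s * v = v → v * s = v → ∃ w, star w * w = s - star v * v ∧ w * star w = s - v * star v

/-- Subprojections of finite projections. -/
def W_sub : Prop :=
  ∀ (A : Type u) [CStarAlgebra A] (s p : A), Prj s → Prj p → s * p = p → Fnt s → Fnt p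

/-- Support projections. -/
def W_faith : Prop :=
  ∀ (A : Type u) [CStarAlgebra A], Wst A → ∀ φ : A →ₗ[ℂ] ℂ, Nrm φ → ∀ z : A, Prj z → φ z ≠ 0 →
    ∃ s, Prj s ∧ z * s = s ∧ s ≠ 0 ∧ ∀ e, Prj e → s * e = e → φ e = 0 → e = 0

/-- Exhaustion. -/
def W_exh : Prop :=
  ∀ (A : Type u) [CStarAlgebra A], Wst A → ∀ φ₁ φ₂ : A →ₗ[ℂ] ℂ, Nrm φ₁ → Nrm φ₂ →
    ∀ p : A, Prj p → (φ₁ p).re < (φ₂ p).re →
    ∃ p', Prj p' ∧ p * p' = p' ∧ p' ≠ 0 ∧ ∀ e, Prj e → p' * e = e → (φ₁ e).re ≤ (φ₂ e).re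

/-- First selection. -/
def W_sel : Prop :=
  ∀ (A : Type u) [CStarAlgebra A], Wst A → ∀ φ : A →ₗ[ℂ] ℂ, Nrm φ → ∀ s : A, Prj s → s ≠ 0 →
    Fnt s → (∀ e, Prj e → s * e = e → φ e = 0 → e = 0) →
    ∃ p w, Prj p ∧ s * p = p ∧ p ≠ 0 ∧ star w * w = p ∧ s * w = w ∧
      ∀ u, PIs u → u * p = u → w * star w * u = u →
        (φ (u * star u)).re ≤ 2 * (φ (star u * u)).re

/-- Nearly tracial corner, for partial isometries. -/
def W_near : Prop :=
  ∀ (A : Type u) [CStarAlgebra A], Wst A → ∀ φ : A →ₗ[ℂ] ℂ, Nrm φ → ∀ s : A, Prj s → s ≠ 0 →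
    Fnt s → (∀ e, Prj e → s * e = e → φ e = 0 → e = 0) → ∀ ε : ℝ, 0 < ε →
    ∃ p, Prj p ∧ s * p = p ∧ p ≠ 0 ∧ ∀ a, PIs a → p * a = a → a * p = a →
      (φ (a * star a)).re ≤ (1 + ε) * (φ (star a * a)).re

/-- Approximation of positive elements by combinations of projections. -/
def W_step : Prop :=
  ∀ (A : Type u) [CStarAlgebra A], Wst A → ∀ (b s : A), Pos b → Prj s → s * b = b →
    ∀ ε : ℝ, 0 < ε → ∃ (n : ℕ) (e : Fin n → A) (l : Fin n → ℝ),
      (∀ i, 0 ≤ l i ∧ Prj (e i) ∧ s * e i = e i) ∧ ‖b - ∑ i, (l i : ℂ) • e i‖ ≤ ε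

/-- Nearly tracial corner, for all elements. -/
def W_all : Prop :=
  ∀ (A : Type u) [CStarAlgebra A], Wst A → ∀ φ : A →ₗ[ℂ] ℂ, Nrm φ → ∀ p : A, Prj p → ∀ ε : ℝ,
    0 ≤ ε → (∀ a, PIs a → p * a = a → a * p = a →
      (φ (a * star a)).re ≤ (1 + ε) * (φ (star a * a)).re) →
    ∀ x, p * x = x → x * p = x → (φ (x * star x)).re ≤ (1 + ε) * (φ (star x * x)).re

/-- Sums of sequences. -/
def W_seq : Prop :=
  ∀ (A : Type u) [CStarAlgebra A], Wst A → ∀ v : ℕ → A, (∀ i, PIs (v i)) →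
    (∀ i j, i ≠ j → star (v i) * v j = 0 ∧ v i * star (v j) = 0) →
    ∃ V, PIs V ∧ (∀ i, V * (star (v i) * v i) = v i) ∧ (∀ i, (v i * star (v i)) * V = v i) ∧
      ∀ a b, (∀ i, a * v i * b = 0) → a * V * b = 0

/-- No infinite families of equivalent projections in finite projections. -/
def W_inf : Prop :=
  ∀ (A : Type u) [CStarAlgebra A], Wst A → ∀ s : A, Prj s → Fnt s → ∀ (v : ℕ → A) (p : A),
    Prj p → (∀ i j, star (v i) * v j = if i = j then p else 0) → (∀ i, s * v i = v i) → p = 0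

/-- Copies of a projection. -/
def W_cop : Prop :=
  ∀ (A : Type u) [CStarAlgebra A], Wst A → ∀ z : A, CPrj z → Fnt z → ∀ p : A, Prj p →
    z * p = p → p ≠ 0 → ∃ g, CPrj g ∧ z * g = g ∧ g ≠ 0 ∧ ∃ (n : ℕ) (w : Fin n → A),
      (∀ j, PIs (w j) ∧ w j * p = w j) ∧ ∑ j, w j * star (w j) = g

/-- The nearly tracial functional. -/
def W_psi : Prop :=
  ∀ (A : Type u) [CStarAlgebra A] (φ : A →ₗ[ℂ] ℂ), (∀ a, 0 ≤ φ (star a * a)) →
    ∀ p g z : A, Prj p → CPrj g → g ≠ 0 → CPrj z → z * g = g → (∀ e, Prj e → p * e = e → φ e = 0 → e = 0) →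
    ∀ (n : ℕ) (w : Fin n → A), (∀ j, PIs (w j) ∧ w j * p = w j) → ∑ j, w j * star (w j) = g →
    ∀ ε : ℝ, 0 ≤ ε →
    (∀ x, p * x = x → x * p = x → (φ (x * star x)).re ≤ (1 + ε) * (φ (star x * x)).re) →
    ∃ ψ : A →ₗ[ℂ] ℂ, (∀ a, 0 ≤ ψ (star a * a)) ∧ ψ 1 = 1 ∧ ψ z = 1 ∧
      ∀ x, (ψ (x * star x)).re ≤ (1 + ε) * (ψ (star x * x)).re

/-- Limits of nearly tracial functionals. -/
def W_lim : Prop :=
  ∀ (A : Type u) [CStarAlgebra A] (z : A), (∀ ε : ℝ, 0 < ε → ∃ ψ : A →ₗ[ℂ] ℂ,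
      (∀ a, 0 ≤ ψ (star a * a)) ∧ ψ 1 = 1 ∧ ψ z = 1 ∧
        ∀ x, (ψ (x * star x)).re ≤ (1 + ε) * (ψ (star x * x)).re) →
    ∃ τ : A →ₗ[ℂ] ℂ, TrOn τ z

/-- Finite central projections carry traces. -/
def W_trace : Prop :=
  ∀ (A : Type u) [CStarAlgebra A], Wst A → ∀ z : A, CPrj z → z ≠ 0 → Fnt z →
    ∃ τ : A →ₗ[ℂ] ℂ, TrOn τ z

/-- Infinite projections contain properly infinite ones. -/
def W_pinf : Prop :=
  ∀ (A : Type u) [CStarAlgebra A], Wst A → ∀ r : A, Prj r → ¬ Fnt r →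
    ∃ d a b, Prj d ∧ d ≠ 0 ∧ r * d = d ∧ star a * a = d ∧ star b * b = d ∧ star a * b = 0 ∧
      d * a = a ∧ d * b = b

/-- Isometries with orthogonal ranges. -/
def W_isom : Prop :=
  ∀ (A : Type u) [CStarAlgebra A], Wst A → ∀ e : A, CPrj e →
    (∀ z, CPrj z → e * z = z → Fnt z → z = 0) →
    ∃ s₁ s₂ : A, star s₁ * s₁ = e ∧ star s₂ * s₂ = e ∧ star s₁ * s₂ = 0 ∧ e * s₁ = s₁ ∧
      e * s₂ = s₂

/-- The consequences. -/
def W_vn : Prop := ∀ (A : Type u) [CStarAlgebra A], Wst A → VN A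

end H759R2.Kad
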