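import Mathlib
import Pool.Agent.H759R2.Kad.Props6

/-!
Statements of the pieces of the localisation at an ultrafilter of central projections.
-/

open scoped ComplexOrder InnerProductSpace ComplexConjugate
open Finset

noncomputable section

namespace H759R2.Kad

universe u v

section defs

variable {A : Type u} [CStarAlgebra A]

/-- Ultrafilter of central projections. -/
structure Ult (𝒰 : Set A) : Prop where
  sub : ∀ z ∈ 𝒰, CPrj z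
  one : 1 ∈ 𝒰
  zero : 0 ∉ 𝒰
  mul : ∀ z ∈ 𝒰, ∀ z' ∈ 𝒰, z * z' ∈ 𝒰
  dich : ∀ z, CPrj z → z ∈ 𝒰 ∨ 1 - z ∈ 𝒰

/-- `q : A → F` is the quotient map of `A` at the ultrafilter `𝒰`. -/
structure Fib (𝒰 : Set A) {F : Type u} [CStarAlgebra F] (q : A →⋆ₐ[ℂ] F) : Prop where
  ult : Ult 𝒰
  surj : Function.Surjective q
  one : ∀ z ∈ 𝒰, q z = 1
  low : ∀ (x : A) (ε : ℝ), 0 < ε → ∃ z ∈ 𝒰, ‖z * x‖ ≤ ‖q x‖ + ε

/-- `j` identifies `N` with the corner `P F P`. -/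
structure Cor {N : Type u} [CStarAlgebra N] {F : Type u} [CStarAlgebra F] (j : N →⋆ₙₐ[ℂ] F)
    (P : F) : Prop where
  inj : Function.Injective j
  one : j 1 = P
  surj : ∀ y, P * y * P = y → ∃ x, j x = y

/-- `s` is a finite sum of equivalent minimal projections. -/
def FT {F : Type u} [CStarAlgebra F] (s : F) : Prop :=
  ∃ (n : ℕ) (W : Fin n → F) (P : F), Tup W P ∧ P ≠ 0 ∧ (∀ y, ∃ l : ℂ, P * y * P = l • P) ∧
    ∑ i, W i * star (W i) = s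

/-- The algebra is divisible by all integers up to a small remainder, with good corners. -/
def Rich (F : Type u) [CStarAlgebra F] : Prop :=
  ∀ k : ℕ, ∃ (V : Fin (k + 1) → F) (P : F), Tup V P ∧ Sbe (1 - ∑ i, V i * star (V i)) P ∧
    ∀ (N : Type u) [CStarAlgebra N] (j : N →⋆ₙₐ[ℂ] F), Cor j P →
      ∀ τ : N →ₗ[ℂ] ℂ, IsTracialState τ → HasDixmier τ ∧ HasOrth τ

end defs

/-! ### The quotient -/

/-- Existence of the quotient. -/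
def Q_ex : Prop :=
  ∀ (A : Type u) [CStarAlgebra A] (𝒰 : Set A), Ult 𝒰 →
    ∃ (F : Type u) (_ : CStarAlgebra F) (q : A →⋆ₐ[ℂ] F), Fib 𝒰 q

/-- Factorisation of homomorphisms through the quotient. -/
def Q_fac : Prop :=
  ∀ (A : Type u) [CStarAlgebra A] (𝒰 : Set A) (F : Type u) [CStarAlgebra F] (q : A →⋆ₐ[ℂ] F),
    Fib 𝒰 q → ∀ (H : Type v) [NormedAddCommGroup H] [InnerProductSpace ℂ H] [CompleteSpace H]
    (w : A →ₗ[ℂ] (H →L[ℂ] H)), IsHom w → ∀ c : ℝ, 0 ≤ c → (∀ a, ‖w a‖ ≤ c * ‖a‖) →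
    (∀ z ∈ 𝒰, w z = 1) →
    ∃ w' : F →ₗ[ℂ] (H →L[ℂ] H), IsHom w' ∧ (∀ y, ‖w' y‖ ≤ c * ‖y‖) ∧ ∀ a, w' (q a) = w a

/-- Level bounds pull back along *-homomorphisms. -/
def Q_lvl : Prop :=
  ∀ (A : Type u) [CStarAlgebra A] [PartialOrder A] [StarOrderedRing A]
    (F : Type u) [CStarAlgebra F] [PartialOrder F] [StarOrderedRing F] (q : A →⋆ₐ[ℂ] F)
    (H : Type v) [NormedAddCommGroup H] [InnerProductSpace ℂ H] [CompleteSpace H]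
    (w : A →ₗ[ℂ] (H →L[ℂ] H)) (w' : F →ₗ[ℂ] (H →L[ℂ] H)), (∀ a, w' (q a) = w a) →
    ∀ (m : ℕ) (K : ℝ), 0 ≤ K → LvlBd w' m K → LvlBd w m K

/-- Existence of corners. -/
def Q_cor : Prop :=
  ∀ (F : Type u) [CStarAlgebra F] (P : F), Prj P →
    ∃ (N : Type u) (_ : CStarAlgebra N) (j : N →⋆ₙₐ[ℂ] F), Cor j P

/-! ### Structure of the quotient -/

/-- Subprojections of finite sums of minimal projections. -/
def Q_diag : Prop :=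
  ∀ (F : Type u) [CStarAlgebra F] (n : ℕ) (T : Fin n → F) (P : F), Tup T P → P ≠ 0 →
    (∀ y, ∃ l : ℂ, P * y * P = l • P) → ∀ E : F, Prj E → Sbe E (∑ i, T i * star (T i)) →
    ∃ (k : ℕ) (W : Fin k → F), Tup W P ∧ ∑ i, W i * star (W i) = E

/-- Combination. -/
def Q_ftup : Prop :=
  ∀ (F : Type u) [CStarAlgebra F] (R s : F), FT R → ∀ (k : ℕ) (E : Fin k → F),
    (∀ i, Prj (E i)) → (∀ i j, i ≠ j → E i * E j = 0) → ∑ i, E i = s → (∀ i, Sbe (E i) R) → FT s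

/-- Maximal tuples give finite type. -/
def Q_min : Prop :=
  ∀ (A : Type u) [CStarAlgebra A], VN A → ∀ (𝒰 : Set A) (F : Type u) [CStarAlgebra F]
    (q : A →⋆ₐ[ℂ] F), Fib 𝒰 q → ∀ r : A, Prj r → ∀ (n : ℕ) (t : Fin (n + 1) → A) (p : A),
    Tup t p → q p ≠ 0 → (∀ i, r * t i = t i) →
    (∀ (t' : Fin (n + 2) → A) (p' : A), Tup t' p' → (∀ i, r * t' i = t' i) → q p' = 0) →
    FT (q r)

/-- The dichotomy. -/
def Q_dich : Prop :=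
  ∀ (A : Type u) [CStarAlgebra A], VN A → ∀ (𝒰 : Set A) (F : Type u) [CStarAlgebra F]
    (q : A →⋆ₐ[ℂ] F), Fib 𝒰 q → ∀ s : A, Prj s →
    (∀ k : ℕ, ∃ (v : Fin (k + 1) → A) (p : A), Tup v p ∧ s * p = p ∧ (∀ i, s * v i = v i) ∧
      Sbe (q (s - ∑ i, v i * star (v i))) (q p)) ∨ FT (q s)

/-- Dixmier property of the corners of the quotient. -/
def Q_dix : Prop :=
  ∀ (A : Type u) [CStarAlgebra A], VN A → ∀ (𝒰 : Set A) (F : Type u) [CStarAlgebra F]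
    (q : A →⋆ₐ[ℂ] F), Fib 𝒰 q → ∀ p : A, Prj p → ∀ (N : Type u) [CStarAlgebra N]
    (j : N →⋆ₙₐ[ℂ] F), Cor j (q p) → ∀ τ : N →ₗ[ℂ] ℂ, IsTracialState τ → HasDixmier τ

/-- Orthogonal unitaries from tuples. -/
def Q_orth : Prop :=
  ∀ (N : Type u) [CStarAlgebra N],
    (∀ k : ℕ, ∃ (V : Fin (k + 1) → N) (P : N), Tup V P ∧ Sbe (1 - ∑ i, V i * star (V i)) P) →
    ∀ τ : N →ₗ[ℂ] ℂ, IsTracialState τ → HasOrth τ

/-- Richness. -/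
def Q_rich : Prop :=
  ∀ (A : Type u) [CStarAlgebra A], VN A → ∀ (𝒰 : Set A) (F : Type u) [CStarAlgebra F]
    (q : A →⋆ₐ[ℂ] F), Fib 𝒰 q → ¬ FT (1 : F) → Rich F

/-! ### Bounds for homomorphisms of the quotient -/

/-- Finite type. -/
def Q_ftcb : Prop :=
  ∀ (F : Type u) [CStarAlgebra F] [PartialOrder F] [StarOrderedRing F], FT (1 : F) →
    ∀ (H : Type v) [NormedAddCommGroup H] [InnerProductSpace ℂ H] [CompleteSpace H]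
    (w : F →ₗ[ℂ] (H →L[ℂ] H)), IsHom w → ∀ c : ℝ, 1 ≤ c → (∀ a, ‖w a‖ ≤ c * ‖a‖) →
    ∀ m : ℕ, LvlBd w m (c ^ 2)

/-- A tracial state on the corner. -/
def Q_ctr : Prop :=
  ∀ (F : Type u) [CStarAlgebra F] (τ : F →ₗ[ℂ] ℂ), IsTracialState τ →
    ∀ (k : ℕ) (V : Fin k → F) (P : F), Tup V P → Sbe (1 - ∑ i, V i * star (V i)) P →
    ∀ (N : Type u) [CStarAlgebra N] (j : N →⋆ₙₐ[ℂ] F), Cor j P →
    ∃ τ' : N →ₗ[ℂ] ℂ, IsTracialState τ'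

/-- The homomorphism `Y ↦ ∑ V i (Y i j) V j*` from matrices over the corner. -/
def Q_phi : Prop :=
  ∀ (F : Type u) [CStarAlgebra F] (k : ℕ) (V : Fin k → F) (P : F), Tup V P →
    ∀ (N : Type u) [CStarAlgebra N] (j : N →⋆ₙₐ[ℂ] F), Cor j P →
    ∃ Φ : CStarMatrix (Fin k) (Fin k) N →⋆ₙₐ[ℂ] F,
      (∀ Y, Φ Y = ∑ a, ∑ b, V a * j (Y a b) * star (V b)) ∧ Function.Injective Φ ∧
      Φ 1 = ∑ i, V i * star (V i) ∧
      ∀ y, (∑ i, V i * star (V i)) * y * (∑ i, V i * star (V i)) = y → ∃ Y, Φ Y = y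

/-- From level bounds for matrices over a corner to level bounds for the whole algebra. -/
def Q_comb : Prop :=
  ∀ (F : Type u) [CStarAlgebra F] [PartialOrder F] [StarOrderedRing F] (k : ℕ)
    (V : Fin (k + 1) → F) (P : F), Tup V P → Sbe (1 - ∑ i, V i * star (V i)) P →
    ∀ (N : Type u) [CStarAlgebra N] [PartialOrder N] [StarOrderedRing N] (j : N →⋆ₙₐ[ℂ] F),
    Cor j P → ∀ (m : ℕ) (c K : ℝ), 1 ≤ c → 0 ≤ K →
    (∀ (H : Type v) [NormedAddCommGroup H] [InnerProductSpace ℂ H] [CompleteSpace H]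
      (w : CStarMatrix (Fin (k + 1)) (Fin (k + 1)) N →ₗ[ℂ] (H →L[ℂ] H)), IsHom w →
      (∀ X, ‖w X‖ ≤ c * ‖X‖) → LvlBd w (2 * m) K) →
    ∀ (H : Type v) [NormedAddCommGroup H] [InnerProductSpace ℂ H] [CompleteSpace H]
      (w : F →ₗ[ℂ] (H →L[ℂ] H)), IsHom w → (∀ a, ‖w a‖ ≤ c * ‖a‖) → LvlBd w m (2 * c ^ 2 * K)

/-- The rich case with a tracial state. -/
def Q_trcb : Prop :=
  ∀ (F : Type u) [CStarAlgebra F] [PartialOrder F] [StarOrderedRing F], Rich F →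
    ∀ τ : F →ₗ[ℂ] ℂ, IsTracialState τ →
    ∀ (H : Type v) [NormedAddCommGroup H] [InnerProductSpace ℂ H] [CompleteSpace H]
    (w : F →ₗ[ℂ] (H →L[ℂ] H)), IsHom w → ∀ c : ℝ, 1 ≤ c → (∀ a, ‖w a‖ ≤ c * ‖a‖) →
    ∀ m : ℕ, LvlBd w m (432 * c ^ 25)

/-- Column bound in the presence of isometries with orthogonal ranges. -/
def Q_icol : Prop :=
  ∀ (F : Type u) [CStarAlgebra F] [PartialOrder F] [StarOrderedRing F] (s₁ s₂ : F),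
    star s₁ * s₁ = 1 → star s₂ * s₂ = 1 → star s₁ * s₂ = 0 →
    ∀ (H : Type v) [NormedAddCommGroup H] [InnerProductSpace ℂ H] [CompleteSpace H]
    (w : F →ₗ[ℂ] (H →L[ℂ] H)), IsHom w → ∀ c : ℝ, 1 ≤ c → (∀ a, ‖w a‖ ≤ c * ‖a‖) →
    ∀ (n : ℕ) (x : Fin n → F) (ξ : H),
      ∑ i, ‖w (x i) ξ‖ ^ 2 ≤ 9 * c ^ 4 * ‖∑ i, star (x i) * x i‖ * ‖ξ‖ ^ 2

/-- Level bounds in the presence of isometries with orthogonal ranges. -/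
def Q_isom : Prop :=
  ∀ (F : Type u) [CStarAlgebra F] [PartialOrder F] [StarOrderedRing F] (s₁ s₂ : F),
    star s₁ * s₁ = 1 → star s₂ * s₂ = 1 → star s₁ * s₂ = 0 →
    ∀ (H : Type v) [NormedAddCommGroup H] [InnerProductSpace ℂ H] [CompleteSpace H]
    (w : F →ₗ[ℂ] (H →L[ℂ] H)), IsHom w → ∀ c : ℝ, 1 ≤ c → (∀ a, ‖w a‖ ≤ c * ‖a‖) →
    ∀ m : ℕ, LvlBd w m (9 * c ^ 5)

/-- No tracial states, by Hahn-Banach. -/
def Q_hb : Prop :=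
  ∀ (F : Type u) [CStarAlgebra F], (¬ ∃ τ : F →ₗ[ℂ] ℂ, IsTracialState τ) → (1 : F) ≠ 0 →
    ∃ (n : ℕ) (x : Fin n → F) (δ : ℝ), 0 < δ ∧
      Pos (∑ i, (star (x i) * x i - x i * star (x i)) - (δ : ℂ) • 1)

/-- Lifting. -/
def Q_notr : Prop :=
  ∀ (A : Type u) [CStarAlgebra A], VN A → ∀ (𝒰 : Set A) (F : Type u) [CStarAlgebra F]
    (q : A →⋆ₐ[ℂ] F), Fib 𝒰 q → (¬ ∃ τ : F →ₗ[ℂ] ℂ, IsTracialState τ) →
    ∃ s₁ s₂ : F, star s₁ * s₁ = 1 ∧ star s₂ * s₂ = 1 ∧ star s₁ * s₂ = 0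

/-- Bound for homomorphisms of the quotient. -/
def Q_all : Prop :=
  ∀ (A : Type u) [CStarAlgebra A], VN A → ∀ (𝒰 : Set A) (F : Type u) [CStarAlgebra F]
    [PartialOrder F] [StarOrderedRing F] (q : A →⋆ₐ[ℂ] F), Fib 𝒰 q →
    ∀ (H : Type v) [NormedAddCommGroup H] [InnerProductSpace ℂ H] [CompleteSpace H]
    (w : F →ₗ[ℂ] (H →L[ℂ] H)), IsHom w → ∀ c : ℝ, 1 ≤ c → (∀ a, ‖w a‖ ≤ c * ‖a‖) →
    ∀ m : ℕ, LvlBd w m (432 * c ^ 25)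

/-! ### Localisation and centre -/

/-- A norming state which is multiplicative on central projections. -/
def R_state : Prop :=
  ∀ (D : Type v) [CStarAlgebra D] (E : Set D), (∀ e ∈ E, CPrj e) → (1 : D) ∈ E →
    (∀ e ∈ E, ∀ f ∈ E, e * f ∈ E) → (∀ e ∈ E, 1 - e ∈ E) → ∀ d : D, d ≠ 0 →
    ∃ ψ : D →ₗ[ℂ] ℂ, (∀ a, 0 ≤ ψ (star a * a)) ∧ ψ 1 = 1 ∧
      ψ (star d * d) = ((‖d‖ ^ 2 : ℝ) : ℂ) ∧ ∀ e ∈ E, ψ e = 0 ∨ ψ e = 1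

/-- GNS representation. -/
def R_gns : Prop :=
  ∀ (D : Type v) [CStarAlgebra D] (ψ : D →ₗ[ℂ] ℂ), (∀ a, 0 ≤ ψ (star a * a)) →
    ∃ (K : Type v) (_ : NormedAddCommGroup K) (_ : InnerProductSpace ℂ K) (_ : CompleteSpace K)
      (π : D →⋆ₐ[ℂ] (K →L[ℂ] K)) (Ω : K), (∀ a, ⟪Ω, π a Ω⟫_ℂ = ψ a) ∧
      ∀ (x : K) (ε : ℝ), 0 < ε → ∃ a, ‖x - π a Ω‖ ≤ ε

/-- Localisation. -/
def R_loc : Prop :=
  ∀ (A : Type u) [CStarAlgebra A] [PartialOrder A] [StarOrderedRing A] (c K : ℝ) (m : ℕ),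
    1 ≤ c → 0 ≤ K →
    (∀ (H : Type v) [NormedAddCommGroup H] [InnerProductSpace ℂ H] [CompleteSpace H]
      (w : A →ₗ[ℂ] (H →L[ℂ] H)), IsHom w → (∀ a, ‖w a‖ ≤ c * ‖a‖) →
      (∀ e, CPrj e → w e = 0 ∨ w e = 1) → LvlBd w m K) →
    ∀ (H : Type v) [NormedAddCommGroup H] [InnerProductSpace ℂ H] [CompleteSpace H]
      (w : A →ₗ[ℂ] (H →L[ℂ] H)), IsHom w → (∀ a, ‖w a‖ ≤ c * ‖a‖) →
      (∀ e, CPrj e → star (w e) = w e) → LvlBd w m K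

/-- Commutative algebras. -/
def R_comm : Prop :=
  ∀ (Z : Type u) [CStarAlgebra Z] [PartialOrder Z] [StarOrderedRing Z],
    (∀ a b : Z, a * b = b * a) →
    ∀ (H : Type v) [NormedAddCommGroup H] [InnerProductSpace ℂ H] [CompleteSpace H]
    (w : Z →ₗ[ℂ] (H →L[ℂ] H)), IsHom w → ∀ c : ℝ, 1 ≤ c → (∀ a, ‖w a‖ ≤ c * ‖a‖) →
    ∀ m : ℕ, LvlBd w m (6 * c ^ 2)

/-- Central projections are made self-adjoint by a similarity. -/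
def R_cen : Prop :=
  ∀ (A : Type u) [CStarAlgebra A]
    (H : Type v) [NormedAddCommGroup H] [InnerProductSpace ℂ H] [CompleteSpace H]
    (w : A →ₗ[ℂ] (H →L[ℂ] H)), IsHom w → ∀ c : ℝ, 1 ≤ c → (∀ a, ‖w a‖ ≤ c * ‖a‖) →
    ∃ S S' : H →L[ℂ] H, S * S' = 1 ∧ S' * S = 1 ∧ ‖S‖ ^ 2 ≤ 6 * c ^ 2 ∧ ‖S'‖ ^ 2 ≤ 6 * c ^ 2 ∧
      ∀ e, CPrj e → star (S * w e * S') = S * w e * S'

/-- Level bounds and similarity. -/
def R_simb : Prop :=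
  ∀ (A : Type u) [CStarAlgebra A] [PartialOrder A] [StarOrderedRing A]
    (H : Type v) [NormedAddCommGroup H] [InnerProductSpace ℂ H] [CompleteSpace H]
    (w w₁ : A →ₗ[ℂ] (H →L[ℂ] H)) (S S' : H →L[ℂ] H) (b K : ℝ) (m : ℕ), 0 ≤ b → 0 ≤ K →
    S * S' = 1 → S' * S = 1 → ‖S‖ ^ 2 ≤ b → ‖S'‖ ^ 2 ≤ b → (∀ a, w₁ a = S * w a * S') →
    LvlBd w₁ m K → LvlBd w m (b * K)

/-- Bound for homomorphisms of algebras with the properties `VN`. -/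
def R_vn : Prop :=
  ∀ (A : Type u) [CStarAlgebra A] [PartialOrder A] [StarOrderedRing A], VN A →
    ∀ (H : Type v) [NormedAddCommGroup H] [InnerProductSpace ℂ H] [CompleteSpace H]
    (w : A →ₗ[ℂ] (H →L[ℂ] H)), IsHom w → ∀ c : ℝ, 1 ≤ c → (∀ a, ‖w a‖ ≤ c * ‖a‖) →
    ∀ m : ℕ, LvlBd w m (2592 * 6 ^ 25 * c ^ 77)

/-! ### General C*-algebras -/

/-- Bounded functionals are combinations of four positive ones. -/
def G_jord : Prop :=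
  ∀ (A : Type u) [CStarAlgebra A] (f : A →ₗ[ℂ] ℂ) (C : ℝ), 0 ≤ C → (∀ a, ‖f a‖ ≤ C * ‖a‖) →
    ∃ φ : Fin 4 → (A →ₗ[ℂ] ℂ), (∀ k, (∀ a, 0 ≤ φ k (star a * a)) ∧ (φ k 1).re ≤ C) ∧
      ∀ a, f a = ∑ k : Fin 4, Complex.I ^ (k : ℕ) * φ k a

/-- Direct sums of GNS representations. -/
def G_univ : Prop :=
  ∀ (A : Type u) [CStarAlgebra A] (I : Type u) (φ : I → (A →ₗ[ℂ] ℂ)),
    (∀ i a, 0 ≤ φ i (star a * a)) →
    ∃ (K : Type u) (_ : NormedAddCommGroup K) (_ : InnerProductSpace ℂ K) (_ : CompleteSpace K)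
      (π : A →⋆ₐ[ℂ] (K →L[ℂ] K)) (Ω : I → K), (∀ i a, ⟪Ω i, π a (Ω i)⟫_ℂ = φ i a) ∧
      ∀ i j a, i ≠ j → ⟪Ω i, π a (Ω j)⟫_ℂ = 0

/-- A representation in which all bounded functionals are vector functionals. -/
def G_rep : Prop :=
  ∀ (A : Type u) [CStarAlgebra A],
    ∃ (K : Type u) (_ : NormedAddCommGroup K) (_ : InnerProductSpace ℂ K) (_ : CompleteSpace K)
      (π : A →⋆ₐ[ℂ] (K →L[ℂ] K)), ∀ (f : A →ₗ[ℂ] ℂ) (C : ℝ), 0 ≤ C → (∀ a, ‖f a‖ ≤ C * ‖a‖) →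
        ∃ ζ ω : K, (∀ a, f a = ⟪ζ, π a ω⟫_ℂ) ∧ ‖ζ‖ * ‖ω‖ ≤ 4 * C

/-- Bicommutant theorem. -/
def G_bic : Prop :=
  ∀ (A : Type u) [CStarAlgebra A]
    (K : Type u) [NormedAddCommGroup K] [InnerProductSpace ℂ K] [CompleteSpace K]
    (π : A →⋆ₐ[ℂ] (K →L[ℂ] K)), ∃ M : VonNeumannAlgebra K, (∀ a, π a ∈ M) ∧
      ∀ x ∈ M, ∀ (ζ₁ ζ₂ : K) (ε : ℝ), 0 < ε →
        ∃ a, ‖x ζ₁ - π a ζ₁‖ ≤ ε ∧ ‖x ζ₂ - π a ζ₂‖ ≤ ε

/-- Extension of homomorphisms. -/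
def G_ext : Prop :=
  ∀ (A : Type u) [CStarAlgebra A], ∃ (K : Type u) (_ : NormedAddCommGroup K)
      (_ : InnerProductSpace ℂ K) (_ : CompleteSpace K) (M : VonNeumannAlgebra K)
      (ι : A →⋆ₐ[ℂ] M.toStarSubalgebra),
    ∀ (H : Type v) [NormedAddCommGroup H] [InnerProductSpace ℂ H] [CompleteSpace H]
    (w : A →ₗ[ℂ] (H →L[ℂ] H)), IsHom w → ∀ c : ℝ, 0 ≤ c → (∀ a, ‖w a‖ ≤ c * ‖a‖) →
    ∃ w' : M.toStarSubalgebra →ₗ[ℂ] (H →L[ℂ] H), IsHom w' ∧ (∀ x, ‖w' x‖ ≤ 4 * c * ‖x‖) ∧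
      ∀ a, w' (ι a) = w a

/-- Bound for homomorphisms of unital C*-algebras. -/
def G_all : Prop :=
  ∀ (A : Type u) [CStarAlgebra A] [PartialOrder A] [StarOrderedRing A]
    (H : Type v) [NormedAddCommGroup H] [InnerProductSpace ℂ H] [CompleteSpace H]
    (w : A →ₗ[ℂ] (H →L[ℂ] H)), IsHom w → ∀ c : ℝ, 1 ≤ c → (∀ a, ‖w a‖ ≤ c * ‖a‖) →
    ∀ m : ℕ, LvlBd w m (2592 * 6 ^ 25 * (4 * c) ^ 77)

/-- Bounded derivations of C*-algebras, unital or not, are inner. -/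
def G_der : Prop :=
  ∀ (A : Type) [NonUnitalCStarAlgebra A] (H : Type) [NormedAddCommGroup H]
    [InnerProductSpace ℂ H] [CompleteSpace H] (π : A →⋆ₙₐ[ℂ] (H →L[ℂ] H))
    (δ : A →L[ℂ] (H →L[ℂ] H)), (∀ a b : A, δ (a * b) = π a * δ b + δ a * π b) →
    ∃ T : H →L[ℂ] H, ∀ a : A, δ a = π a * T - T * π a

/-- Automatic continuity of derivations (Ringrose). -/
def G_ring : Prop :=
  ∀ (A : Type u) [CStarAlgebra A] (H : Type v) [NormedAddCommGroup H] [InnerProductSpace ℂ H]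
    [CompleteSpace H] (π : A →⋆ₐ[ℂ] (H →L[ℂ] H)) (D : A →ₗ[ℂ] (H →L[ℂ] H)),
    (∀ a b, D (a * b) = π a * D b + D a * π b) → ∃ M : ℝ, 0 ≤ M ∧ ∀ a, ‖D a‖ ≤ M * ‖a‖

end H759R2.Kad
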