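import Mathlib
import Pool.Agent.H747R2.Kad.Fourth
import Pool.Agent.H143R2.Kad.Trunc
import Pool.Agent.H880R2.Kad.GtSa
import Pool.Agent.H873R2.Kad.GT
import Pool.Agent.H777R2.Kad.Dix
import Pool.Agent.H539R2.Kad.Chars
import Pool.Agent.H668R2.Kad.Phtr
import Pool.Agent.H57R2.Kad2.Col
import Pool.Agent.H294R2.Kad2.Dix2
import Pool.Agent.H329R2.Kad2.Det
import Pool.Agent.H804R2.Kad3.Fam1
import Pool.Agent.H747R2.Kad3.Fam
import Pool.Agent.H797R2.Kad3.Adj
import Pool.Agent.H621R2.Kad3.Indep
import Pool.Agent.H64R2.Kad3.AvgOne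
import Pool.Agent.H674R2.Kad3.Word
import Pool.Agent.H708R2.Kad3.Expand
import Pool.Agent.H368R2.Kad3.Pars
import Pool.Agent.H797R2.Kad3.Entries
import Pool.Agent.H672R2.Kad3.Fourier
import Pool.Agent.H856R2.Kad3.Path
import Pool.Agent.H578R2.Kad3.Gram
import Pool.Agent.H627R2.Kad3.Rand
import Pool.Agent.H834R2.Kad3.Flat
import Pool.Agent.H872R2.Kad3.Block3
import Pool.Agent.H872R2.Kad3.Embed3
import Pool.Agent.H216R2.Kad3.Level
import Pool.Agent.H403R2.Kad3.Crude
import Pool.Agent.H778R2.Kad3.Vmap
import Pool.Agent.H226R2.Kad3.Wcol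
import Pool.Agent.H847R2.Kad3.Generic
import Pool.Agent.H153R2.Kad3.Orbit
import Pool.Agent.H114R2.Kad3.Unit
import Pool.Agent.H457R2.Kad3.Main24
import Pool.Agent.H235R2.Kad3.Sim
import Pool.Agent.H488R2.Kad3.Units
import Pool.Agent.H839R2.Kad3.Nest
import Pool.Agent.H866R2.Kad3.Transport
import Pool.Agent.H354R2.Kad3.Iso
import Pool.Agent.H8R2.Kad3.Final
import Pool.Agent.H759R2.Kad.Stmt3

/-!
Assembly of the main theorem.
-/

noncomputable section

namespace H759R2.Kad

universe u v

/-- The main theorem for matrix algebras over algebras with the Dixmier property. -/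
theorem main_final : K_final.{u, v} := by
  have hgtsa : St_gtsa.{u, v} := prove_gtsa prove_fourth prove_trunc
  have hgt : St_gt.{u, v} := prove_gt hgtsa
  have hcol : T2_col.{u, v} := prove2_col hgt
  have hdix : T2_dix.{u, v} := prove2_dix prove_dix
  have hphtr : St_phtr.{u} := prove_phtr prove_orth prove_expand
  have hdet : T2_det.{u, v} := prove2_det
  have hfam : K_fam.{u} := prove3_fam prove3_fam1
  have hword : K_word.{u} := prove3_word prove3_indep prove3_avgone
  have hgram : K_gram.{u} := prove3_gram hword prove3_path prove3_entries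
  have hrand : K_rand.{u} := prove3_rand hfam prove3_adj hgram
  have hblock : K_block.{u, v} := prove3_block hgt hcol hdix
  have hembed : K_embed.{u, v} := prove3_embed hblock
  have hwcol : K_wcol.{u, v} := prove3_wcol hcol hdix prove3_level
  have hgen : K_generic.{u, v} := prove3_generic hcol hdix hwcol (prove3_fourier prove3_expand)
    prove3_pars
  have horb : K_orbit.{u, v} := prove3_orbit hgen prove3_crude prove3_vmap hdix
  have hunit : K_unit.{u, v} := prove3_unit hrand hembed hdet hphtr horb prove3_crude hdix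
  have hmain : K_main.{u, v} := prove3_main hunit prove3_flat
  exact prove3_final hmain prove3_sim prove3_units prove3_nest prove3_transport

end H759R2.Kad
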