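import Mathlib
import Pool.Agent.H759R2.Kad.Assemble3
import Pool.Agent.H759R2.Kad.Props4
import Pool.Agent.H759R2.Kad.Props5
import Pool.Agent.H720R2.Kad4.Dhom
import Pool.Agent.H720R2.Kad4.Dinner
import Pool.Agent.H720R2.Kad4.Dscale
import Pool.Agent.H445R2.Kad4.Range
import Pool.Agent.H759R2.Kad.Pow
import Pool.Agent.H989R2.Kad4.Orth
import Pool.Agent.H601R2.Kad4.F12
import Pool.Agent.H85R2.Kad4.Polar
import Pool.Agent.H720R2.Kad4.Join
import Pool.Agent.H849R2.Kad4.F4
import Pool.Agent.H956R2.Kad4.Comp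
import Pool.Agent.H226R2.Kad4.Dix
import Pool.Agent.H332R2.Kad4.NoMin
import Pool.Agent.H241R2.Kad4.Half
import Pool.Agent.H501R2.Kad4.F9
import Pool.Agent.H545R2.Kad4.FbAlg
import Pool.Agent.H720R2.Kad4.Feed
import Pool.Agent.H989R2.Kad4.Free
import Pool.Agent.H992R2.Kad4.Key
import Pool.Agent.H237R4.Kad4.HB
import Pool.Agent.H989R2.Kad4.Form
import Pool.Agent.H989R2.Kad4.Root
import Pool.Agent.H457R2.Kad4.S8

/-!
Assembly: bounded homomorphisms of II_1 factors are similar to *-homomorphisms, and bounded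
derivations of II_1 factors are inner.
-/

noncomputable section

namespace H759R2.Kad

universe u v

theorem final_similar : S_final.{u, v} :=
  prove4_final (prove4_hb (prove4_key (prove4_feed prove4_alg) prove4_free prove3_level)
    prove4_free) prove4_form prove4_root

theorem final_dscale : D_scale.{u, v} := prove4_dscale prove4_dhom prove4_dinner

theorem final_class : F_class.{u} := by
  have hrange : F_range.{u} := prove5_range
  have hpolar : F_polar.{u} := prove5_polar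
  have hjoin : F_join.{u} := prove5_join
  have hchain : F_chain.{u} := prove5_chain
  have hcomp : F_comp.{u} := prove5_comp hjoin hpolar hchain
  have hdix : F_dix.{u} := prove5_dix hrange hcomp
  have hnomin : F_nomin.{u} := prove5_nomin hrange hcomp
  have hhalf : F_half.{u} := prove5_half hchain hcomp hnomin
  have hpow : F_pow.{u} := prove5_pow' (prove5_two hhalf)
  exact prove5_class hpow hdix (prove5_orth hpow)

/-- Bounded homomorphisms of the algebras of the class are similar to *-homomorphisms. -/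
theorem class_similar (A : Type u) [CStarAlgebra A]
    (hA : ∀ L₀ : ℕ, ∃ L, L₀ ≤ L ∧ IsMatDixmier A L)
    (H : Type v) [NormedAddCommGroup H] [InnerProductSpace ℂ H] [CompleteSpace H]
    (u : A →ₗ[ℂ] (H →L[ℂ] H)) (hu : IsHom u) (c : ℝ) (hc : 1 ≤ c) (hb : ∀ a, ‖u a‖ ≤ c * ‖a‖) :
    ∃ S S' : H →L[ℂ] H, S * S' = 1 ∧ S' * S = 1 ∧ ‖S‖ ^ 2 ≤ 216 * c ^ 23 ∧
      ‖S'‖ ^ 2 ≤ 216 * c ^ 23 ∧ ∀ a, star (S * u a * S') = S * u (star a) * S' := by
  letI : PartialOrder A := CStarAlgebra.spectralOrder A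
  letI : StarOrderedRing A := CStarAlgebra.spectralOrderedRing A
  refine final_similar A H u hu (216 * c ^ 23) ?_ fun m =>
    lvl_of_class main_final prove3_iso A hA H u hu c hc hb m
  have : (1 : ℝ) ≤ c ^ 23 := one_le_pow₀ hc
  linarith

/-- Bounded derivations of the algebras of the class are inner. -/
theorem class_inner (A : Type u) [CStarAlgebra A]
    (hA : ∀ L₀ : ℕ, ∃ L, L₀ ≤ L ∧ IsMatDixmier A L)
    (H : Type v) [NormedAddCommGroup H] [InnerProductSpace ℂ H] [CompleteSpace H]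
    (π : A →⋆ₐ[ℂ] (H →L[ℂ] H)) (D : A →ₗ[ℂ] (H →L[ℂ] H))
    (hD : ∀ a b, D (a * b) = π a * D b + D a * π b) (M : ℝ) (hM : 0 ≤ M)
    (hb : ∀ a, ‖D a‖ ≤ M * ‖a‖) :
    ∃ T : H →L[ℂ] H, ‖T‖ ≤ 216 * 2 ^ 23 * M ∧ ∀ a, D a = T * π a - π a * T := by
  refine final_dscale A H (216 * 2 ^ 23) (by norm_num) ?_ π D hD M hM hb
  intro w hw hwb
  obtain ⟨S, S', h1, h2, h3, h4, h5⟩ := class_similar A hA (HH (Fin 2) H) w hw 2 (by norm_num) hwb
  refine ⟨S, S', h1, h2, ?_, h5⟩
  have h6 : (‖S‖ * ‖S'‖) ^ 2 ≤ (216 * 2 ^ 23) ^ 2 := by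
    rw [mul_pow, sq (216 * 2 ^ 23 : ℝ)]
    exact mul_le_mul h3 h4 (by positivity) (by norm_num)
  exact (abs_le_of_sq_le_sq' h6 (by norm_num)).2

end H759R2.Kad
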