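import Mathlib
import Pool.Agent.H759R2.Kad.Props6

open scoped ComplexOrder InnerProductSpace ComplexConjugate
open Finset

noncomputable section

namespace H759R2.Kad

universe u v

namespace Near

variable {A : Type u} [CStarAlgebra A]

/-- `x ↦ φ (w x w*)`. -/
def cj (φ : A →ₗ[ℂ] ℂ) (w : A) : A →ₗ[ℂ] ℂ where
  toFun x := φ (w * x * star w)
  map_add' x y := by rw [mul_add, add_mul, map_add]
  map_smul' c x := by rw [mul_smul_comm, smul_mul_assoc, map_smul, RingHom.id_apply]

theorem cj_apply (φ : A →ₗ[ℂ] ℂ) (w x : A) : cj φ w x = φ (w * x * star w) := rfl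

theorem nrm_cj {φ : A →ₗ[ℂ] ℂ} (h : Nrm φ) (w : A) : Nrm (cj φ w) where
  pos a := by
    have h1 := h.pos (a * star w)
    rw [cj_apply]
    rwa [star_mul, star_star, mul_assoc, ← mul_assoc (star a), ← mul_assoc w] at h1
  chain w₁ C V hC hV ε hε := by
    obtain ⟨v, hv, h1, h2⟩ := h.chain (w * w₁) C V hC hV ε hε
    refine ⟨v, hv, ?_, ?_⟩
    · simp only [cj_apply]
      simpa only [star_mul, mul_assoc] using h1
    · simp only [cj_apply]
      simpa only [star_mul, mul_assoc] using h2

theorem nrm_smul {φ : A →ₗ[ℂ] ℂ} (h : Nrm φ) {c : ℝ} (hc : 0 < c) : Nrm ((c : ℂ) • φ) where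
  pos a := by
    rw [LinearMap.smul_apply, smul_eq_mul]
    exact mul_nonneg (by exact_mod_cast hc.le) (h.pos a)
  chain w₁ C V hC hV ε hε := by
    obtain ⟨v, hv, h1, h2⟩ := h.chain w₁ C V hC hV (ε / c) (by positivity)
    refine ⟨v, hv, ?_, ?_⟩
    · simp only [LinearMap.smul_apply, smul_eq_mul, Complex.re_ofReal_mul]
      have h3 := mul_le_mul_of_nonneg_left h1 hc.le
      have h4 : c * (ε / c) = ε := by field_simp
      rw [mul_sub, h4] at h3
      exact h3
    · simp only [LinearMap.smul_apply, smul_eq_mul, Complex.re_ofReal_mul]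
      have h3 := mul_le_mul_of_nonneg_left h2 hc.le
      have h4 : c * (ε / c) = ε := by field_simp
      rw [mul_sub, h4] at h3
      exact h3

theorem re_nonneg {φ : A →ₗ[ℂ] ℂ} (h : Nrm φ) (a : A) : 0 ≤ (φ (star a * a)).re :=
  (Complex.le_def.1 (h.pos a)).1

theorem re_nonneg' {φ : A →ₗ[ℂ] ℂ} (h : Nrm φ) (a : A) : 0 ≤ (φ (a * star a)).re := by
  have := re_nonneg h (star a)
  rwa [star_star] at this

theorem prj_re {φ : A →ₗ[ℂ] ℂ} (h : Nrm φ) {e : A} (he : Prj e) : 0 ≤ (φ e).re := by
  have := re_nonneg h e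
  rwa [he.1, he.2] at this

theorem prj_zero {φ : A →ₗ[ℂ] ℂ} (h : Nrm φ) {e : A} (he : Prj e) (h0 : (φ e).re = 0) :
    φ e = 0 := by
  have h1 := h.pos e
  rw [he.1, he.2] at h1
  have h2 := (Complex.le_def.1 h1).2
  exact Complex.ext h0 h2.symm

theorem pi_init {v : A} (h : PIs v) : Prj (star v * v) := by
  refine ⟨by rw [star_mul, star_star], ?_⟩
  have h1 : v * star v * v = v := h
  calc star v * v * (star v * v) = star v * (v * star v * v) := by noncomm_ring
    _ = star v * v := by rw [h1]

theorem pi_star {v : A} (h : PIs v) : PIs (star v) := by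
  have h1 : v * star v * v = v := h
  change star v * star (star v) * star v = star v
  calc star v * star (star v) * star v = star (v * star v * v) := by
        simp only [star_mul, star_star, mul_assoc]
    _ = star v := by rw [h1]

theorem pi_fin {v : A} (h : PIs v) : Prj (v * star v) := by
  have := pi_init (pi_star h)
  rwa [star_star] at this

theorem star_eq {p x : A} (hp : Prj p) (h : p * x = x) : star x * p = star x := by
  have := congrArg star h
  rwa [star_mul, hp.1] at this

theorem star_eq' {p x : A} (hp : Prj p) (h : x * p = x) : p * star x = star x := by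
  have := congrArg star h
  rwa [star_mul, hp.1] at this

end Near

open Near in
theorem prove6_near' (h1 : W_sel.{u}) (h2 : W_exh.{u}) : W_near.{u} := by
  intro A _ hA φ hφ s hs hs0 hF hf ε hε
  -- first selection
  obtain ⟨p, w, hp, hsp, hp0, hwp, hsw, hsel⟩ := h1 A hA φ hφ s hs hs0 hF hf
  have hwpw : w * p = w := by
    have h3 : star (w - w * p) * (w - w * p) = 0 := by
      have e : star (w - w * p) * (w - w * p) =
          star w * w - star w * w * p - (p * (star w * w) - p * (star w * w) * p) := by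
        rw [star_sub, star_mul, hp.1]
        noncomm_ring
      rw [e, hwp, hp.2, hp.2]
      abel
    have h4 : w - w * p = 0 := (CStarRing.star_mul_self_eq_zero_iff _).1 h3
    exact (sub_eq_zero.1 h4).symm
  have hφw : Nrm (cj φ w) := nrm_cj hφ w
  have hfw : ∀ e, Prj e → p * e = e → cj φ w e = 0 → e = 0 := by
    intro e he hpe h0
    have hep : e * p = e := by
      have := star_eq hp hpe
      rwa [he.1] at this
    have hP : Prj (w * e * star w) := by
      refine ⟨by simp only [star_mul, star_star, he.1, mul_assoc], ?_⟩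
      calc w * e * star w * (w * e * star w) = w * (e * (star w * w) * e) * star w := by
            noncomm_ring
        _ = w * e * star w := by rw [hwp, hep, he.2]
    have hsP : s * (w * e * star w) = w * e * star w := by
      rw [← mul_assoc, ← mul_assoc, hsw]
    have h3 := hf _ hP hsP h0
    calc e = p * e * p := by rw [hpe, hep]
      _ = star w * (w * e * star w) * w := by rw [← hwp]; noncomm_ring
      _ = 0 := by rw [h3, mul_zero, zero_mul]
  have hpos_w : 0 < (cj φ w p).re := by
    rcases (prj_re hφw hp).lt_or_eq with h | h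
    · exact h
    · exact absurd (hfw p hp hp.2 (prj_zero hφw hp h.symm)) hp0
  -- second selection
  set C₂ : ℝ := (φ p).re / (cj φ w p).re + 1 with hC₂
  have hC₂pos : 0 < C₂ := by
    have := prj_re hφ hp
    positivity
  obtain ⟨p', hp', hpp', hp'0, hle'⟩ := h2 A hA φ ((C₂ : ℂ) • cj φ w) hφ (nrm_smul hφw hC₂pos) p hp
    (by
      rw [LinearMap.smul_apply, smul_eq_mul, Complex.re_ofReal_mul, hC₂, add_mul, one_mul,
        div_mul_cancel₀ _ hpos_w.ne']
      linarith)
  have hsp' : s * p' = p' := by rw [← hpp', ← mul_assoc, hsp]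
  have hp'p : p' * p = p' := by
    have := star_eq hp hpp'
    rwa [hp'.1] at this
  have hle : ∀ e, Prj e → p' * e = e → (φ e).re ≤ C₂ * (cj φ w e).re := by
    intro e he hpe
    have := hle' e he hpe
    rwa [LinearMap.smul_apply, smul_eq_mul, Complex.re_ofReal_mul] at this
  -- bound for partial isometries in the corner
  have hbd : ∀ a, PIs a → p' * a = a → a * p' = a →
      (φ (a * star a)).re ≤ 2 * C₂ * (φ (star a * a)).re := by
    intro a ha hpa hap
    have hpa1 : p * a = a := by rw [← hpa, ← mul_assoc, hpp']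
    have hap1 : a * p = a := by
      rw [← hap, mul_assoc, hp'p]
    have hu : PIs (w * a) := by
      change w * a * star (w * a) * (w * a) = w * a
      have : a * star a * a = a := ha
      calc w * a * star (w * a) * (w * a) = w * (a * star a * (star w * w) * a) := by
            rw [star_mul]; noncomm_ring
        _ = w * (a * (star a * p) * a) := by rw [hwp]; noncomm_ring
        _ = w * (a * star a * a) := by rw [star_eq hp hpa1]
        _ = w * a := by rw [this]
    have hu1 : w * a * p = w * a := by rw [mul_assoc, hap1]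
    have hu2 : w * star w * (w * a) = w * a := by
      calc w * star w * (w * a) = w * (star w * w) * a := by noncomm_ring
        _ = w * a := by rw [hwp, hwpw]
    have h3 := hsel (w * a) hu hu1 hu2
    have h4 : star (w * a) * (w * a) = star a * a := by
      calc star (w * a) * (w * a) = star a * (star w * w) * a := by rw [star_mul]; noncomm_ring
        _ = star a * a := by rw [hwp, star_eq hp hpa1]
    have h5 : w * a * star (w * a) = w * (a * star a) * star w := by
      rw [star_mul]; noncomm_ring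
    rw [h4, h5] at h3
    have h6 := hle (a * star a) (pi_fin ha) (by rw [← mul_assoc, hpa])
    have h7 : (cj φ w (a * star a)).re ≤ 2 * (φ (star a * a)).re := h3
    nlinarith
  have hpos' : ∀ e, Prj e → e ≠ 0 → s * e = e → 0 < (φ e).re := by
    intro e he he0 hse
    rcases (prj_re hφ he).lt_or_eq with h | h
    · exact h
    · exact absurd (hf e he hse (prj_zero hφ he h.symm)) he0
  -- the optimal ratio
  let S : Set ℝ := {r | ∃ a, PIs a ∧ p' * a = a ∧ a * p' = a ∧ a ≠ 0 ∧
    r = (φ (a * star a)).re / (φ (star a * a)).re}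
  have hden : ∀ a, PIs a → a * p' = a → a ≠ 0 → 0 < (φ (star a * a)).re := by
    intro a ha hap ha0
    refine hpos' _ (pi_init ha) ?_ ?_
    · intro h
      exact ha0 ((CStarRing.star_mul_self_eq_zero_iff _).1 h)
    · have h3 : s * star a = star a := by
        have h4 : p' * star a = star a := star_eq' hp' hap
        rw [← h4, ← mul_assoc, hsp']
      rw [← mul_assoc, h3]
  have hSne : S.Nonempty := ⟨_, p', by change p' * star p' * p' = p'; rw [hp'.1, hp'.2, hp'.2],
    hp'.2, hp'.2, hp'0, rfl⟩
  have hSbd : BddAbove S := by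
    refine ⟨2 * C₂, ?_⟩
    rintro r ⟨a, ha, hpa, hap, ha0, rfl⟩
    rw [div_le_iff₀ (hden a ha hap ha0)]
    exact hbd a ha hpa hap
  set μ : ℝ := sSup S with hμ
  have hμ1 : 1 ≤ μ := by
    refine le_csSup hSbd ⟨p', ?_, hp'.2, hp'.2, hp'0, ?_⟩
    · change p' * star p' * p' = p'
      rw [hp'.1, hp'.2, hp'.2]
    · rw [hp'.1, hp'.2, div_self (hpos' p' hp' hp'0 hsp').ne']
  have hμ0 : 0 < μ := by linarith
  have hμb : ∀ a, PIs a → p' * a = a → a * p' = a →
      (φ (a * star a)).re ≤ μ * (φ (star a * a)).re := by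
    intro a ha hpa hap
    by_cases ha0 : a = 0
    · subst ha0
      simp
    · rw [← div_le_iff₀ (hden a ha hap ha0)]
      exact le_csSup hSbd ⟨a, ha, hpa, hap, ha0, rfl⟩
  have hlt : μ / (1 + ε) < μ := by
    rw [div_lt_iff₀ (by linarith)]
    nlinarith
  obtain ⟨r, ⟨a₀, ha₀, hpa₀, hap₀, ha₀0, rfl⟩, hr⟩ := exists_lt_of_lt_csSup hSne hlt
  rw [lt_div_iff₀ (hden a₀ ha₀ hap₀ ha₀0)] at hr
  have he₀ : Prj (star a₀ * a₀) := pi_init ha₀
  have hk : 0 < μ / (1 + ε) := by positivity
  have ha₀' : a₀ * (star a₀ * a₀) = a₀ := by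
    have : a₀ * star a₀ * a₀ = a₀ := ha₀
    rwa [mul_assoc] at this
  obtain ⟨p₂, hp₂, hep₂, hp₂0, hle₂⟩ := h2 A hA (((μ / (1 + ε) : ℝ) : ℂ) • φ) (cj φ a₀)
    (nrm_smul hφ hk) (nrm_cj hφ a₀) (star a₀ * a₀) he₀ (by
      rw [LinearMap.smul_apply, smul_eq_mul, Complex.re_ofReal_mul, cj_apply, ha₀']
      exact hr)
  have hp'p₂ : p' * p₂ = p₂ := by
    rw [← hep₂, ← mul_assoc, ← mul_assoc, star_eq' hp' hap₀]
  refine ⟨p₂, hp₂, ?_, hp₂0, ?_⟩
  · rw [← hp'p₂, ← mul_assoc, hsp']
  intro a ha hpa hap
  have hea : star a₀ * a₀ * a = a := by rw [← hpa, ← mul_assoc, hep₂]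
  have hpa' : p' * a = a := by rw [← hpa, ← mul_assoc, hp'p₂]
  have hp₂p' : p₂ * p' = p₂ := by
    have := star_eq hp' hp'p₂
    rwa [hp₂.1] at this
  have hap' : a * p' = a := by rw [← hap, mul_assoc, hp₂p']
  have h3 := hle₂ (a * star a) (pi_fin ha) (by rw [← mul_assoc, hpa])
  rw [LinearMap.smul_apply, smul_eq_mul, Complex.re_ofReal_mul, cj_apply] at h3
  have hb : PIs (a₀ * a) := by
    change a₀ * a * star (a₀ * a) * (a₀ * a) = a₀ * a
    have : a * star a * a = a := ha
    calc a₀ * a * star (a₀ * a) * (a₀ * a) = a₀ * (a * star a * (star a₀ * a₀ * a)) := by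
          rw [star_mul]; noncomm_ring
      _ = a₀ * a := by rw [hea, this]
  have h4 := hμb (a₀ * a) hb (by rw [← mul_assoc, hpa₀]) (by rw [mul_assoc, hap'])
  have h5 : star (a₀ * a) * (a₀ * a) = star a * a := by
    calc star (a₀ * a) * (a₀ * a) = star a * (star a₀ * a₀ * a) := by
          rw [star_mul]; noncomm_ring
      _ = star a * a := by rw [hea]
  have h6 : a₀ * a * star (a₀ * a) = a₀ * (a * star a) * star a₀ := by
    rw [star_mul]; noncomm_ring
  rw [h5, h6] at h4
  have h7 : μ / (1 + ε) * (φ (a * star a)).re ≤ μ * (φ (star a * a)).re := h3.trans h4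
  have h8 : μ * (φ (a * star a)).re ≤ μ * ((1 + ε) * (φ (star a * a)).re) := by
    have h9 : μ / (1 + ε) * (φ (a * star a)).re * (1 + ε) = μ * (φ (a * star a)).re := by
      field_simp
    nlinarith
  exact le_of_mul_le_mul_left h8 hμ0

end H759R2.Kad
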