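import Mathlib
import Pool.Agent.H759R2.Kad.Assemble4
import Pool.Agent.H759R2.Kad.Props6
import Pool.Agent.H759R2.Kad.Props7
import Pool.Agent.H759R2.Kad.Qall
import Pool.Agent.H759R2.Kad.Near
import Pool.Agent.H120R2.Kad5.Comb
import Pool.Agent.H121R2.Kad5.Cop
import Pool.Agent.H121R2.Kad5.Ext
import Pool.Agent.H130R2.Kad5.C5
import Pool.Agent.H177R2.Kad5.Cen
import Pool.Agent.H177R2.Kad5.Notr
import Pool.Agent.H196R2.Kad5.C1
import Pool.Agent.H196R2.Kad5.Q13
import Pool.Agent.H201R2.Kad5.C6
import Pool.Agent.H204R2.Kad5.GNS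
import Pool.Agent.H219R2.Kad5.Comp
import Pool.Agent.H219R2.Kad5.Isom
import Pool.Agent.H225R2.Kad5.Ftup
import Pool.Agent.H228R2.Kad5.All
import Pool.Agent.H228R2.Kad5.Fac
import Pool.Agent.H228R2.Kad5.Sep
import Pool.Agent.H237R4.Kad5.Der
import Pool.Agent.H275R2.Kad5.Univ
import Pool.Agent.H29R2.Kad5.Jord
import Pool.Agent.H386R2.Kad5.QEx
import Pool.Agent.H386R2.Kad5.RState
import Pool.Agent.H406R2.Kad5.Lim
import Pool.Agent.H407R2.Kad5.Canc
import Pool.Agent.H407R2.Kad5.Trcb
import Pool.Agent.H488R2.Kad.Faith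
import Pool.Agent.H488R2.Kad.Hb
import Pool.Agent.H49R2.Kad5.Tup
import Pool.Agent.H53R2.Kad5.Bic
import Pool.Agent.H551R2.Kad5.Dich
import Pool.Agent.H594R2.Kad5.Pinf
import Pool.Agent.H602R2.Kad5.Sel
import Pool.Agent.H649R2.Kad5.Q14
import Pool.Agent.H649R2.Kad5.Q4
import Pool.Agent.H649R2.Kad5.Q5
import Pool.Agent.H649R2.Kad5.R6
import Pool.Agent.H649R2.Kad5.W3
import Pool.Agent.H649R2.Kad5.W5
import Pool.Agent.H649R2.Kad5.W7
import Pool.Agent.H672R2.Kad5.Ftcb
import Pool.Agent.H674R2.Kad5.Rvn
import Pool.Agent.H697R2.Kad5.Q17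
import Pool.Agent.H697R2.Kad5.Q18
import Pool.Agent.H697R2.Kad5.R4
import Pool.Agent.H697R2.Kad5.W12
import Pool.Agent.H697R2.Kad5.W13
import Pool.Agent.H697R2.Kad5.W15
import Pool.Agent.H756R2.Kad5.Dixq
import Pool.Agent.H756R2.Kad5.Min
import Pool.Agent.H760R2.Kad5.W17
import Pool.Agent.H760R2.Kad5.W20
import Pool.Agent.H818R2.Kad5.Cen
import Pool.Agent.H818R2.Kad5.Loc
import Pool.Agent.H819R2.Kad5.C3
import Pool.Agent.H819R2.Kad5.G6
import Pool.Agent.H85R2.Kad5.Q11
import Pool.Agent.H896R2.Kad5.W10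
import Pool.Agent.H905R2.Kad5.G3
import Pool.Agent.H983R2.Kad5.Orth

/-!
Assembly of the general case: bounded homomorphisms of C*-algebras are completely bounded, hence
similar to *-homomorphisms; bounded derivations are inner.
-/

noncomputable section

namespace H759R2.Kad

universe u v

theorem all_wst : C_wst.{u} := by
  have h1 : C_chain.{u} := prove6_chain prove5_chain
  have h2 : C_sep.{u} := prove6_sep h1
  exact prove6_wst h1 h2 prove6_polar prove6_cen (prove6_spec prove5_range)

theorem all_wvn : W_vn.{u} := by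
  have hcomp : W_comp.{u} := prove6_comp
  have htup : W_tup.{u} := prove6_tup
  have hsupp : W_supp.{u} := prove6_supp
  have hcanc : W_canc.{u} := prove6_canc hcomp
  have hsub : W_sub.{u} := prove6_sub
  have hfaith : W_faith.{u} := prove6_faith hsupp
  have hexh : W_exh.{u} := prove6_exh hsupp
  have hsel : W_sel.{u} := prove6_sel hcanc
  have hnear : W_near.{u} := prove6_near' hsel hexh
  have hall : W_all.{u} := prove6_all prove6_step
  have hseq : W_seq.{u} := prove6_seq
  have hinf : W_inf.{u} := prove6_inf hseq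
  have hcop : W_cop.{u} := prove6_cop hcomp hinf
  have htrace : W_trace.{u} := prove6_trace hsub hfaith hnear hall hcop prove6_psi prove6_lim
  have hpinf : W_pinf.{u} := prove6_pinf hseq
  have hisom : W_isom.{u} := prove6_isom hcomp hpinf hsub
  exact prove6_vn hcomp htup htrace hisom

theorem all_gt : St_gt.{u, v} := prove_gt (prove_gtsa prove_fourth prove_trunc)

theorem all_quot : Q_all.{u, v} := by
  have hftup : Q_ftup.{u} := prove7_ftup prove7_diag
  have hdich : Q_dich.{u} := prove7_dich prove7_min hftup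
  have hrich : Q_rich.{u} := prove7_rich hdich prove7_dix prove7_orth hftup
  have hcomb : Q_comb.{u, v} := prove_comb prove7_phi
  have htrcb : Q_trcb.{u, v} := prove7_trcb main_final hcomb prove7_ctr prove7_cor
  have hisom : Q_isom.{u, v} := prove7_isom (prove7_icol all_gt)
  exact prove7_all' prove7_ftcb hrich htrcb (prove7_notr prove7_hb) hisom

theorem all_vn : R_vn.{u, v} := by
  have hcen : R_cen.{u, v} := prove7_cen (prove7_comm all_gt) final_similar
  have hloc : R_loc.{u, v} := prove7_loc prove7_state prove7_gns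
  exact prove7_vn hcen prove7_simb hloc prove7_ex prove7_fac prove7_lvl all_quot

/-- Bounded unital homomorphisms of unital C*-algebras are completely bounded. -/
theorem all_cstar : G_all.{u, v} := by
  have hrep : G_rep.{u} := prove7_rep prove7_jord (prove7_univ prove7_gns)
  have hext : G_ext.{u, v} := prove7_ext hrep prove7_bic
  exact prove7_gall hext all_vn all_wst all_wvn prove7_lvl

/-- Bounded derivations of C*-algebras into `B(H)` are inner. -/
theorem all_der : G_der := prove7_der all_cstar final_similar final_dscale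

end H759R2.Kad
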